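import Mathlib

/-!
# Second moment of the hypergeometric distribution

helper44, for MP_f03f67_co.
-/

set_option autoImplicit false

open Finset

namespace Pool.Agent.H44.Cvx

/-- subsets containing a given element -/
lemma card_mem {U : Finset ℕ} {n : ℕ} (hn : 1 ≤ n) (hU : 1 ≤ U.card) {e : ℕ} (he : e ∈ U) :
    (((U.powersetCard n).filter (fun D => e ∈ D)).card : ℝ)
      = (n : ℝ) / U.card * (U.card.choose n) := by
  have h1 : ((U.powersetCard n).filter (fun D => e ∈ D))
      = ((U.powersetCard n).filter (fun D => {e} ⊆ D)) := by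
    apply Finset.filter_congr
    intro D _
    simp
  rw [h1, Finset.card_filter_powersetCard_subset _ _ _ (by simpa using he) (by simpa using hn)]
  simp only [card_singleton]
  obtain ⟨m, hm⟩ : ∃ m, U.card = m + 1 := ⟨U.card - 1, by omega⟩
  obtain ⟨j, rfl⟩ : ∃ j, n = j + 1 := ⟨n - 1, by omega⟩
  rw [hm]
  have h2 := Nat.add_one_mul_choose_eq m j
  have h3 : ((m + 1 : ℕ) : ℝ) * (m.choose j : ℕ) = ((m + 1).choose (j + 1) : ℕ) * ((j + 1 : ℕ) : ℝ) := by
    exact_mod_cast h2
  have h4 : ((m + 1 : ℕ) : ℝ) ≠ 0 := by positivity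
  simp only [Nat.add_sub_cancel]
  rw [div_mul_eq_mul_div, eq_div_iff h4]
  linarith

/-- subsets containing two given elements -/
lemma card_mem_two {U : Finset ℕ} {n : ℕ} (hn : 1 ≤ n) (hnU : n ≤ U.card) {e f : ℕ}
    (he : e ∈ U) (hf : f ∈ U) (hef : e ≠ f) :
    (((U.powersetCard n).filter (fun D => e ∈ D ∧ f ∈ D)).card : ℝ)
      ≤ ((n : ℝ) / U.card) ^ 2 * (U.card.choose n) := by
  rcases Nat.lt_or_ge n 2 with h2 | h2
  · have : ((U.powersetCard n).filter (fun D => e ∈ D ∧ f ∈ D)) = ∅ := by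
      apply Finset.filter_eq_empty_iff.2
      intro D hD hh
      have h3 : ({e, f} : Finset ℕ) ⊆ D := by
        intro x hx
        simp only [mem_insert, mem_singleton] at hx
        rcases hx with rfl | rfl
        · exact hh.1
        · exact hh.2
      have h4 := Finset.card_le_card h3
      rw [Finset.card_pair hef, (mem_powersetCard.1 hD).2] at h4
      omega
    rw [this]
    simp only [card_empty, Nat.cast_zero]
    positivity
  · have h1 : ((U.powersetCard n).filter (fun D => e ∈ D ∧ f ∈ D))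
        = ((U.powersetCard n).filter (fun D => {e, f} ⊆ D)) := by
      apply Finset.filter_congr
      intro D _
      simp [Finset.insert_subset_iff]
    rw [h1, Finset.card_filter_powersetCard_subset _ _ _
      (by simp [Finset.insert_subset_iff, he, hf]) (by rw [Finset.card_pair hef]; exact h2),
      Finset.card_pair hef]
    obtain ⟨m, hm⟩ : ∃ m, U.card = m + 2 := ⟨U.card - 2, by omega⟩
    obtain ⟨j, rfl⟩ : ∃ j, n = j + 2 := ⟨n - 2, by omega⟩
    rw [hm] at hnU ⊢
    simp only [Nat.add_sub_cancel]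
    have h3 := Nat.add_one_mul_choose_eq m j
    have h4 := Nat.add_one_mul_choose_eq (m + 1) (j + 1)
    have h3' : ((m : ℝ) + 1) * (m.choose j : ℕ) = ((m + 1).choose (j + 1) : ℕ) * ((j : ℝ) + 1) := by
      exact_mod_cast h3
    have h4' : ((m : ℝ) + 2) * ((m + 1).choose (j + 1) : ℕ)
        = ((m + 2).choose (j + 2) : ℕ) * ((j : ℝ) + 2) := by
      have : ((m + 1 + 1 : ℕ) : ℝ) * ((m + 1).choose (j + 1) : ℕ)
        = ((m + 1 + 1).choose (j + 1 + 1) : ℕ) * ((j + 1 + 1 : ℕ) : ℝ) := by exact_mod_cast h4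
      push_cast at this
      have e1 : (m : ℝ) + 1 + 1 = m + 2 := by ring
      have e2 : (j : ℝ) + 1 + 1 = j + 2 := by ring
      rw [e1, e2] at this
      exact this
    have hjm : (j : ℝ) ≤ m := by
      have : j ≤ m := by omega
      exact_mod_cast this
    have hj0 : (0 : ℝ) ≤ j := by positivity
    have hN : (0 : ℝ) ≤ ((m + 2).choose (j + 2) : ℕ) := by positivity
    push_cast
    set N : ℝ := (((m + 2).choose (j + 2) : ℕ) : ℝ)
    set P : ℝ := (((m + 1).choose (j + 1) : ℕ) : ℝ)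
    set R : ℝ := ((m.choose j : ℕ) : ℝ)
    have eR : R = (j + 1) / (m + 1) * P := by
      rw [div_mul_eq_mul_div, eq_div_iff (by positivity)]
      linarith
    have eP : P = (j + 2) / (m + 2) * N := by
      rw [div_mul_eq_mul_div, eq_div_iff (by positivity)]
      linarith
    rw [eR, eP]
    have h5 : ((j : ℝ) + 1) / (m + 1) ≤ (j + 2) / (m + 2) := by
      rw [div_le_div_iff₀ (by positivity) (by positivity)]
      nlinarith
    have h6 : (0 : ℝ) ≤ (j + 2) / (m + 2) * N := by positivity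
    calc ((j : ℝ) + 1) / (m + 1) * ((j + 2) / (m + 2) * N)
        ≤ (j + 2) / (m + 2) * ((j + 2) / (m + 2) * N) := mul_le_mul_of_nonneg_right h5 h6
      _ = ((j + 2) / (m + 2)) ^ 2 * N := by ring

lemma sum_card {U : Finset ℕ} {n : ℕ} (hn : 1 ≤ n) (hnU : n ≤ U.card) {B : Finset ℕ} (hB : B ⊆ U) :
    ∑ D ∈ U.powersetCard n, ((B ∩ D).card : ℝ) = B.card * ((n : ℝ) / U.card * (U.card.choose n)) := by
  have h1 : ∀ D ∈ U.powersetCard n, ((B ∩ D).card : ℝ) = ∑ e ∈ B, if e ∈ D then (1 : ℝ) else 0 := by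
    intro D _
    rw [← Finset.sum_filter, Finset.sum_const, nsmul_eq_mul, mul_one, Finset.filter_mem_eq_inter]
  rw [Finset.sum_congr rfl h1, Finset.sum_comm]
  have h2 : ∀ e ∈ B, (∑ D ∈ U.powersetCard n, if e ∈ D then (1 : ℝ) else 0)
      = (n : ℝ) / U.card * (U.card.choose n) := by
    intro e he
    rw [← Finset.sum_filter, Finset.sum_const, nsmul_eq_mul, mul_one,
      card_mem hn (hn.trans hnU) (hB he)]
  rw [Finset.sum_congr rfl h2, Finset.sum_const, nsmul_eq_mul]

lemma sum_card_sq {U : Finset ℕ} {n : ℕ} (hn : 1 ≤ n) (hnU : n ≤ U.card) {B : Finset ℕ}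
    (hB : B ⊆ U) :
    ∑ D ∈ U.powersetCard n, ((B ∩ D).card : ℝ) ^ 2
      ≤ B.card * ((n : ℝ) / U.card * (U.card.choose n))
        + B.card * (B.card - 1) * (((n : ℝ) / U.card) ^ 2 * (U.card.choose n)) := by
  have h1 : ∀ D ∈ U.powersetCard n, ((B ∩ D).card : ℝ) ^ 2
      = ∑ e ∈ B, ∑ f ∈ B, if (e ∈ D ∧ f ∈ D) then (1 : ℝ) else 0 := by
    intro D _
    have : ((B ∩ D).card : ℝ) = ∑ e ∈ B, if e ∈ D then (1 : ℝ) else 0 := by
      rw [← Finset.sum_filter, Finset.sum_const, nsmul_eq_mul, mul_one, Finset.filter_mem_eq_inter]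
    rw [sq, this, Finset.sum_mul_sum]
    apply Finset.sum_congr rfl
    intro e _
    apply Finset.sum_congr rfl
    intro f _
    by_cases he : e ∈ D <;> by_cases hf : f ∈ D <;> simp [he, hf]
  rw [Finset.sum_congr rfl h1, Finset.sum_comm]
  have h2 : ∀ e ∈ B, (∑ D ∈ U.powersetCard n, ∑ f ∈ B, if (e ∈ D ∧ f ∈ D) then (1 : ℝ) else 0)
      ≤ (n : ℝ) / U.card * (U.card.choose n)
        + (B.card - 1) * (((n : ℝ) / U.card) ^ 2 * (U.card.choose n)) := by
    intro e he
    rw [Finset.sum_comm]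
    have h3 : ∀ f ∈ B, (∑ D ∈ U.powersetCard n, if (e ∈ D ∧ f ∈ D) then (1 : ℝ) else 0)
        = (((U.powersetCard n).filter (fun D => e ∈ D ∧ f ∈ D)).card : ℝ) := by
      intro f _
      rw [← Finset.sum_filter, Finset.sum_const, nsmul_eq_mul, mul_one]
    rw [Finset.sum_congr rfl h3, ← Finset.add_sum_erase B _ he]
    apply add_le_add
    · simp only [and_self]
      rw [card_mem hn (hn.trans hnU) (hB he)]
    · calc ∑ f ∈ B.erase e, (((U.powersetCard n).filter (fun D => e ∈ D ∧ f ∈ D)).card : ℝ)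
          ≤ ∑ f ∈ B.erase e, (((n : ℝ) / U.card) ^ 2 * (U.card.choose n)) := by
            apply Finset.sum_le_sum
            intro f hf
            rw [Finset.mem_erase] at hf
            exact card_mem_two hn hnU (hB he) (hB hf.2) (Ne.symm hf.1)
        _ = (B.card - 1) * (((n : ℝ) / U.card) ^ 2 * (U.card.choose n)) := by
            rw [Finset.sum_const, nsmul_eq_mul, Finset.card_erase_of_mem he]
            have : 1 ≤ B.card := Finset.card_pos.2 ⟨e, he⟩
            rw [Nat.cast_sub this]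
            simp
  calc _ ≤ ∑ e ∈ B, ((n : ℝ) / U.card * (U.card.choose n)
        + (B.card - 1) * (((n : ℝ) / U.card) ^ 2 * (U.card.choose n))) := Finset.sum_le_sum h2
    _ = _ := by
      rw [Finset.sum_const, nsmul_eq_mul]
      ring

/-- The variance of the hypergeometric distribution. -/
lemma second_moment {U : Finset ℕ} {n : ℕ} (hn : 1 ≤ n) (hnU : n ≤ U.card) {B : Finset ℕ}
    (hB : B ⊆ U) :
    ∑ D ∈ U.powersetCard n, (((B ∩ D).card : ℝ) - B.card * ((n : ℝ) / U.card)) ^ 2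
      ≤ B.card * ((n : ℝ) / U.card) * (1 - (n : ℝ) / U.card) * (U.card.choose n) := by
  set p : ℝ := (n : ℝ) / U.card with hp
  have h1 : ∑ D ∈ U.powersetCard n, (((B ∩ D).card : ℝ) - B.card * p) ^ 2
      = ∑ D ∈ U.powersetCard n, ((B ∩ D).card : ℝ) ^ 2
        - 2 * (B.card * p) * ∑ D ∈ U.powersetCard n, ((B ∩ D).card : ℝ)
        + (B.card * p) ^ 2 * (U.card.choose n) := by
    have e3 : ∑ D ∈ U.powersetCard n, (B.card * p) ^ 2 = (B.card * p) ^ 2 * (U.card.choose n) := by
      rw [Finset.sum_const, nsmul_eq_mul, card_powersetCard]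
      ring
    rw [← e3, Finset.mul_sum, ← Finset.sum_sub_distrib, ← Finset.sum_add_distrib]
    apply Finset.sum_congr rfl
    intro D _
    ring
  rw [h1, sum_card hn hnU hB]
  have h2 := sum_card_sq hn hnU hB
  rw [← hp] at h2 ⊢
  nlinarith

/-- Chebyshev: few sets `D` with `|#(B ∩ D) - #B p| ≥ t`. -/
lemma chebyshev {U : Finset ℕ} {n : ℕ} (hn : 1 ≤ n) (hnU : n ≤ U.card) {B : Finset ℕ}
    (hB : B ⊆ U) {t : ℝ} (ht : 0 < t) (P : Finset ℕ → Prop) [DecidablePred P]
    (hP : ∀ D ∈ U.powersetCard n, P D → t ≤ |((B ∩ D).card : ℝ) - B.card * ((n : ℝ) / U.card)|) :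
    (((U.powersetCard n).filter P).card : ℝ)
      ≤ B.card * ((n : ℝ) / U.card) * (1 - (n : ℝ) / U.card) * (U.card.choose n) / t ^ 2 := by
  rw [le_div_iff₀ (by positivity)]
  refine le_trans ?_ (second_moment hn hnU hB)
  rw [← nsmul_eq_mul, ← Finset.sum_const]
  refine le_trans (Finset.sum_le_sum (g := fun D => (((B ∩ D).card : ℝ) - B.card * ((n : ℝ) / U.card)) ^ 2) ?_)
    (Finset.sum_le_sum_of_subset_of_nonneg (Finset.filter_subset _ _) (fun _ _ _ => sq_nonneg _))
  intro D hD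
  rw [Finset.mem_filter] at hD
  have := hP D hD.1 hD.2
  calc t ^ 2 ≤ |((B ∩ D).card : ℝ) - B.card * ((n : ℝ) / U.card)| ^ 2 := by gcongr
    _ = _ := sq_abs _

end Pool.Agent.H44.Cvx
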