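import Pool.Agent.Lib_helper44.Cvx.Swap
import Pool.Agent.Lib_helper44.Cvx.Moment

/-!
# Counting coincidences of window sums

helper44, for MP_f03f67_co.
-/

set_option autoImplicit false

open Finset

namespace Pool.Agent.H44.Cvx

lemma card_le_sum_fibers {α β γ : Type*} [DecidableEq β] (S : Finset α) (T : Finset β)
    (f : α → β) (hf : ∀ s ∈ S, f s ∈ T) (h : α → γ) (G : β → Finset γ)
    (hG : ∀ s ∈ S, h s ∈ G (f s))
    (hinj : ∀ s ∈ S, ∀ s' ∈ S, f s = f s' → h s = h s' → s = s') :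
    S.card ≤ ∑ t ∈ T, (G t).card := by
  rw [Finset.card_eq_sum_card_fiberwise hf]
  apply Finset.sum_le_sum
  intro t _
  apply Finset.card_le_card_of_injOn h
  · intro s hs
    rw [Finset.mem_coe, Finset.mem_filter] at hs
    rw [Finset.mem_coe, ← hs.2]
    exact hG s hs.1
  · intro s hs s' hs' heq
    rw [Finset.mem_coe, Finset.mem_filter] at hs hs'
    exact hinj s hs.1 s' hs'.1 (hs.2.trans hs'.2.symm) heq

/-- Two windows of `D`, the second to the right of the first, with equal sums. -/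
def IsQuad (g : ℕ → ℝ) (D : Finset ℕ) (a b c d : ℕ) : Prop :=
  a ∈ D ∧ b ∈ D ∧ c ∈ D ∧ d ∈ D ∧ a ≤ b ∧ b < c ∧ c ≤ d ∧ ws g D a b = ws g D c d

/-- All quadruples for all `D`. -/
noncomputable def quads (g : ℕ → ℝ) (m n : ℕ) : Finset (Finset ℕ × ℕ × ℕ × ℕ × ℕ) :=
  open Classical in
  (((range m).powersetCard n) ×ˢ (range m ×ˢ (range m ×ˢ (range m ×ˢ range m)))).filter fun s =>
    IsQuad g s.1 s.2.1 s.2.2.1 s.2.2.2.1 s.2.2.2.2

lemma mem_quads {g : ℕ → ℝ} {m n : ℕ} {D : Finset ℕ} {a b c d : ℕ} :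
    (D, a, b, c, d) ∈ quads g m n ↔ D ∈ (range m).powersetCard n ∧ IsQuad g D a b c d := by
  classical
  rw [quads, Finset.mem_filter]
  simp only [Finset.mem_product, Finset.mem_range]
  constructor
  · rintro ⟨⟨h1, -⟩, h2⟩
    exact ⟨h1, h2⟩
  · rintro ⟨h1, h2⟩
    have hsub := (mem_powersetCard.1 h1).1
    obtain ⟨ha, hb, hc, hd, -⟩ := id h2
    exact ⟨⟨h1, Finset.mem_range.1 (hsub ha), Finset.mem_range.1 (hsub hb),
      Finset.mem_range.1 (hsub hc), Finset.mem_range.1 (hsub hd)⟩, h2⟩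

lemma quad_facts {g : ℕ → ℝ} (hg : StrictMono g) (hg0 : 0 < g 0) {D : Finset ℕ} {a b c d : ℕ}
    (h : IsQuad g D a b c d) : (win D c d).card < (win D a b).card :=
  card_lt_of_eq hg hg0 h.1 h.2.2.2.2.1 h.2.2.2.2.2.1 h.2.2.2.2.2.2.2

/-- `(D, a, #window, #second window)` determines the quadruple. -/
lemma quad_inj_left {g : ℕ → ℝ} (hg : StrictMono g) {D : Finset ℕ} {a b c d b' c' d' : ℕ}
    (h : IsQuad g D a b c d) (h' : IsQuad g D a b' c' d')
    (h1 : (win D a b).card = (win D a b').card) (h2 : (win D c d).card = (win D c' d').card) :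
    b = b' ∧ c = c' ∧ d = d' := by
  obtain ⟨ha, hb, hc, hd, hab, hbc, hcd, hs⟩ := h
  obtain ⟨ha', hb', hc', hd', hab', hbc', hcd', hs'⟩ := h'
  have e1 : b = b' := right_unique hb hb' hab hab' h1
  subst e1
  have e2 : c = c' := window_unique hg hc hd hc' hd' hcd hcd' h2 (hs.symm.trans hs')
  subst e2
  exact ⟨rfl, rfl, right_unique hd hd' hcd hcd' h2⟩

/-- `(D, c, d, #first window)` determines the quadruple. -/
lemma quad_inj_right {g : ℕ → ℝ} (hg : StrictMono g) {D : Finset ℕ} {a b c d a' b' : ℕ}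
    (h : IsQuad g D a b c d) (h' : IsQuad g D a' b' c d)
    (h1 : (win D a b).card = (win D a' b').card) : a = a' ∧ b = b' := by
  obtain ⟨ha, hb, hc, hd, hab, hbc, hcd, hs⟩ := h
  obtain ⟨ha', hb', hc', hd', hab', hbc', hcd', hs'⟩ := h'
  have e2 : a = a' := window_unique hg ha hb ha' hb' hab hab' h1 (hs.trans hs'.symm)
  subst e2
  exact ⟨rfl, right_unique hb hb' hab hab' h1⟩

section bounds

variable {m k : ℕ} (hk : 1 ≤ k) (hkm : 2 * k ≤ m)

include hk hkm

lemma ratio_facts : ((m - k : ℕ) : ℝ) / (range m).card = 1 - (k : ℝ) / m ∧ (0 : ℝ) < k ∧ (0 : ℝ) < m ∧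
    (k : ℝ) / m ≤ 1 / 2 ∧ 0 < (k : ℝ) / m := by
  have hk0 : (0 : ℝ) < k := by exact_mod_cast hk
  have hm0 : (0 : ℝ) < m := by
    have : 0 < m := by omega
    exact_mod_cast this
  have h2 : 2 * (k : ℝ) ≤ m := by exact_mod_cast hkm
  refine ⟨?_, hk0, hm0, ?_, by positivity⟩
  · rw [Finset.card_range, Nat.cast_sub (by omega)]
    field_simp
  · rw [div_le_iff₀ hm0]
    linarith

/-- Few `D` have fewer than a quarter of the elements of a block. -/
lemma few_bound {B : Finset ℕ} (hB : B ⊆ range m) (hB1 : 1 ≤ B.card)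
    (P : Finset ℕ → Prop) [DecidablePred P]
    (hP : ∀ D ∈ (range m).powersetCard (m - k), P D → ((B ∩ D).card : ℝ) ≤ B.card / 4) :
    ((((range m).powersetCard (m - k)).filter P).card : ℝ) ≤ 8 / B.card * (m.choose (m - k)) := by
  obtain ⟨h1, hk0, hm0, h2, h3⟩ := ratio_facts hk hkm
  have hq : (0 : ℝ) < B.card := by exact_mod_cast hB1
  have h := chebyshev (U := range m) (n := m - k) (by omega) (by rw [Finset.card_range]; omega)
    hB (t := B.card / 4) (by positivity) P ?_
  · refine h.trans ?_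
    rw [h1, Finset.card_range]
    set κ : ℝ := (k : ℝ) / m
    have hN : (0 : ℝ) ≤ (m.choose (m - k) : ℕ) := by positivity
    have e1 : (B.card : ℝ) * (1 - κ) * (1 - (1 - κ)) * (m.choose (m - k)) / (B.card / 4) ^ 2
        = (16 * ((1 - κ) * κ)) / B.card * (m.choose (m - k)) := by
      field_simp
      ring
    rw [e1]
    apply mul_le_mul_of_nonneg_right _ hN
    apply div_le_div_of_nonneg_right _ hq.le
    nlinarith
  · intro D hD hPD
    have h4 := hP D hD hPD
    rw [h1]
    have h5 : (B.card : ℝ) * (1 - (k : ℝ) / m) ≥ B.card * (1 / 2) := by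
      apply mul_le_mul_of_nonneg_left _ hq.le
      linarith
    rw [abs_sub_comm]
    refine le_trans ?_ (le_abs_self _)
    linarith

/-- Few `D` miss only few elements of a block. -/
lemma many_bound {B : Finset ℕ} (hB : B ⊆ range m) (hB1 : 1 ≤ B.card)
    (P : Finset ℕ → Prop) [DecidablePred P]
    (hP : ∀ D ∈ (range m).powersetCard (m - k), P D →
      ((B \ D).card : ℝ) ≤ B.card * k / (2 * m)) :
    ((((range m).powersetCard (m - k)).filter P).card : ℝ)
      ≤ 4 * m / (B.card * k) * (m.choose (m - k)) := by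
  obtain ⟨h1, hk0, hm0, h2, h3⟩ := ratio_facts hk hkm
  have hq : (0 : ℝ) < B.card := by exact_mod_cast hB1
  have h := chebyshev (U := range m) (n := m - k) (by omega) (by rw [Finset.card_range]; omega)
    hB (t := B.card * k / (2 * m)) (by positivity) P ?_
  · refine h.trans ?_
    rw [h1, Finset.card_range]
    have hN : (0 : ℝ) ≤ (m.choose (m - k) : ℕ) := by positivity
    have e1 : (B.card : ℝ) * (1 - (k : ℝ) / m) * (1 - (1 - (k : ℝ) / m)) * (m.choose (m - k))
        / (B.card * k / (2 * m)) ^ 2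
        = (1 - (k : ℝ) / m) * (4 * m / (B.card * k) * (m.choose (m - k))) := by
      field_simp
      ring
    rw [e1]
    have h6 : (0 : ℝ) ≤ 4 * m / (B.card * k) * (m.choose (m - k)) := by positivity
    nlinarith
  · intro D hD hPD
    have h4 := hP D hD hPD
    rw [h1]
    have h5 : ((B \ D).card : ℝ) = B.card - (B ∩ D).card := by
      have := Finset.card_inter_add_card_sdiff B D
      have h6 : ((B ∩ D).card : ℝ) + (B \ D).card = B.card := by exact_mod_cast this
      linarith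
    rw [h5] at h4
    refine le_trans ?_ (le_abs_self _)
    have e2 : (B.card : ℝ) * k / (2 * m) = B.card * (k / m) / 2 := by
      field_simp
    rw [e2] at h4 ⊢
    linarith

end bounds

end Pool.Agent.H44.Cvx
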