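import Pool.Agent.Lib_helper44.Cvx.Total

/-!
# From additive energy to coincidences of window sums

helper44, for MP_f03f67_co.
-/

set_option autoImplicit false

open Finset

namespace Pool.Agent.H44.Cvx

open Classical in
/-- The additive energy of a finite set of reals. -/
noncomputable def energy (A : Finset ℝ) : ℕ :=
  (((A ×ˢ A) ×ˢ (A ×ˢ A)).filter fun q => q.1.1 + q.1.2 = q.2.1 + q.2.2).card

open Classical in
/-- The ordered quadruples. -/
noncomputable def ordered (A : Finset ℝ) : Finset (ℝ × ℝ × ℝ × ℝ) :=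
  (A ×ˢ (A ×ˢ (A ×ˢ A))).filter fun q =>
    q.1 < q.2.1 ∧ q.2.1 ≤ q.2.2.1 ∧ q.2.2.1 < q.2.2.2 ∧ q.2.1 - q.1 = q.2.2.2 - q.2.2.1

lemma energy_le (A : Finset ℝ) : energy A ≤ 4 * A.card ^ 2 + 8 * (ordered A).card := by
  classical
  set F : Finset ((ℝ × ℝ) × (ℝ × ℝ)) := ((A ×ˢ A) ×ˢ (A ×ˢ A)).filter fun q =>
    q.1.1 ≤ q.1.2 ∧ q.2.1 ≤ q.2.2 ∧ q.1.1 + q.1.2 = q.2.1 + q.2.2 with hF
  have hmemF : ∀ x y z w : ℝ, ((x, y), (z, w)) ∈ F ↔ (x ∈ A ∧ y ∈ A ∧ z ∈ A ∧ w ∈ A) ∧
      x ≤ y ∧ z ≤ w ∧ x + y = z + w := by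
    intro x y z w
    simp only [hF, Finset.mem_filter, Finset.mem_product]
    tauto
  have h1 : energy A ≤ 4 * F.card := by
    have hsub : (((A ×ˢ A) ×ˢ (A ×ˢ A)).filter fun q => q.1.1 + q.1.2 = q.2.1 + q.2.2) ⊆
        (F ∪ F.image (fun q => ((q.1.2, q.1.1), q.2))) ∪
        (F.image (fun q => (q.1, (q.2.2, q.2.1))) ∪
          F.image (fun q => ((q.1.2, q.1.1), (q.2.2, q.2.1)))) := by
      rintro ⟨⟨x, y⟩, ⟨z, w⟩⟩ hq
      simp only [Finset.mem_filter, Finset.mem_product] at hq
      obtain ⟨⟨⟨hx, hy⟩, hz, hw⟩, he⟩ := hq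
      simp only [Finset.mem_union, Finset.mem_image]
      rcases le_total x y with h | h <;> rcases le_total z w with h' | h'
      · exact Or.inl (Or.inl ((hmemF _ _ _ _).2 ⟨⟨hx, hy, hz, hw⟩, h, h', he⟩))
      · exact Or.inr (Or.inl ⟨((x, y), (w, z)),
          (hmemF _ _ _ _).2 ⟨⟨hx, hy, hw, hz⟩, h, h', by linarith⟩, rfl⟩)
      · exact Or.inl (Or.inr ⟨((y, x), (z, w)),
          (hmemF _ _ _ _).2 ⟨⟨hy, hx, hz, hw⟩, h, h', by linarith⟩, rfl⟩)
      · exact Or.inr (Or.inr ⟨((y, x), (w, z)),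
          (hmemF _ _ _ _).2 ⟨⟨hy, hx, hw, hz⟩, h, h', by linarith⟩, rfl⟩)
    have hc := Finset.card_le_card hsub
    refine hc.trans ((Finset.card_union_le _ _).trans ?_)
    have c1 := Finset.card_union_le F (F.image (fun q => ((q.1.2, q.1.1), q.2)))
    have c2 := Finset.card_union_le (F.image (fun q => (q.1, (q.2.2, q.2.1))))
      (F.image (fun q => ((q.1.2, q.1.1), (q.2.2, q.2.1))))
    have c3 : (F.image (fun q => ((q.1.2, q.1.1), q.2))).card ≤ F.card := Finset.card_image_le
    have c4 : (F.image (fun q => (q.1, (q.2.2, q.2.1)))).card ≤ F.card := Finset.card_image_le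
    have c5 : (F.image (fun q => ((q.1.2, q.1.1), (q.2.2, q.2.1)))).card ≤ F.card :=
      Finset.card_image_le
    omega
  have h2 : F.card ≤ A.card ^ 2 + 2 * (ordered A).card := by
    have hsub : F ⊆ (A ×ˢ A).image (fun p => (p, p)) ∪
        ((ordered A).image (fun q => ((q.1, q.2.2.2), (q.2.1, q.2.2.1))) ∪
         (ordered A).image (fun q => ((q.2.1, q.2.2.1), (q.1, q.2.2.2)))) := by
      rintro ⟨⟨x, y⟩, ⟨z, w⟩⟩ hq
      rw [hmemF] at hq
      obtain ⟨⟨hx, hy, hz, hw⟩, hxy, hzw, he⟩ := hq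
      simp only [Finset.mem_union, Finset.mem_image]
      rcases lt_trichotomy x z with h | h | h
      · refine Or.inr (Or.inl ⟨(x, z, w, y), ?_, rfl⟩)
        simp only [ordered, Finset.mem_filter, Finset.mem_product]
        exact ⟨⟨hx, hz, hw, hy⟩, h, hzw, by linarith, by linarith⟩
      · refine Or.inl ⟨(x, y), ?_, ?_⟩
        · rw [Finset.mem_product]
          exact ⟨hx, hy⟩
        · have : y = w := by linarith
          rw [← h, ← this]
      · refine Or.inr (Or.inr ⟨(z, x, y, w), ?_, rfl⟩)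
        simp only [ordered, Finset.mem_filter, Finset.mem_product]
        exact ⟨⟨hz, hx, hy, hw⟩, h, hxy, by linarith, by linarith⟩
    have hc := Finset.card_le_card hsub
    refine hc.trans ((Finset.card_union_le _ _).trans ?_)
    have c1 := Finset.card_union_le ((ordered A).image (fun q => ((q.1, q.2.2.2), (q.2.1, q.2.2.1))))
      ((ordered A).image (fun q => ((q.2.1, q.2.2.1), (q.1, q.2.2.2))))
    have c2 : ((A ×ˢ A).image (fun p => (p, p))).card ≤ A.card ^ 2 := by
      refine Finset.card_image_le.trans ?_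
      rw [Finset.card_product, sq]
    have c3 : ((ordered A).image (fun q => ((q.1, q.2.2.2), (q.2.1, q.2.2.1)))).card
        ≤ (ordered A).card := Finset.card_image_le
    have c4 : ((ordered A).image (fun q => ((q.2.1, q.2.2.1), (q.1, q.2.2.2)))).card
        ≤ (ordered A).card := Finset.card_image_le
    omega
  omega

open Classical in
/-- The convex set with least element `0` whose set of gaps is `D`. -/
noncomputable def convexSet (D : Finset ℝ) : Finset ℝ :=
  insert 0 (D.image fun t => ∑ e ∈ D.filter (fun e => e ≤ t), e)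

lemma card_convexSet_le (D : Finset ℝ) : (convexSet D).card ≤ D.card + 1 := by
  classical
  unfold convexSet
  exact (Finset.card_insert_le _ _).trans (Nat.add_le_add_right Finset.card_image_le _)

/-- partial sums, strict -/
noncomputable def sm (g : ℕ → ℝ) (D : Finset ℕ) (a : ℕ) : ℝ := ∑ i ∈ D.filter (fun i => i < a), g i

/-- partial sums, not strict -/
noncomputable def sp (g : ℕ → ℝ) (D : Finset ℕ) (a : ℕ) : ℝ := ∑ i ∈ D.filter (fun i => i ≤ a), g i

lemma mem_convexSet {g : ℕ → ℝ} (hg : StrictMono g) {D : Finset ℕ} {x : ℝ} :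
    x ∈ convexSet (D.image g) ↔ x = 0 ∨ ∃ b ∈ D, x = sp g D b := by
  classical
  have key : ∀ b : ℕ, ∑ e ∈ (D.image g).filter (fun e => e ≤ g b), e = sp g D b := by
    intro b
    unfold sp
    rw [Finset.filter_image, Finset.sum_image (fun i _ j _ h => hg.injective h)]
    apply Finset.sum_congr _ (fun _ _ => rfl)
    apply Finset.filter_congr
    intro i _
    exact hg.le_iff_le
  unfold convexSet
  rw [Finset.mem_insert, Finset.mem_image]
  constructor
  · rintro (h | ⟨t, ht, h⟩)
    · exact Or.inl h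
    · rw [Finset.mem_image] at ht
      obtain ⟨b, hb, rfl⟩ := ht
      exact Or.inr ⟨b, hb, by rw [← h, key]⟩
  · rintro (h | ⟨b, hb, h⟩)
    · exact Or.inl h
    · exact Or.inr ⟨g b, Finset.mem_image_of_mem _ hb, by rw [key, h]⟩

section pos

variable {g : ℕ → ℝ} (hpos : ∀ i, 0 < g i)

include hpos

lemma sp_mono {D : Finset ℕ} {a b : ℕ} (hab : a ≤ b) : sp g D a ≤ sp g D b := by
  unfold sp
  apply Finset.sum_le_sum_of_subset_of_nonneg
  · intro i hi
    rw [Finset.mem_filter] at hi ⊢
    exact ⟨hi.1, by omega⟩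
  · intro i _ _
    exact (hpos i).le

lemma sp_lt {D : Finset ℕ} {a b : ℕ} (hab : a < b) (hb : b ∈ D) : sp g D a < sp g D b := by
  unfold sp
  apply Finset.sum_lt_sum_of_subset (i := b)
  · intro i hi
    rw [Finset.mem_filter] at hi ⊢
    exact ⟨hi.1, by omega⟩
  · rw [Finset.mem_filter]
    exact ⟨hb, le_refl _⟩
  · rw [Finset.mem_filter]
    omega
  · exact hpos b
  · intro i _ _
    exact (hpos i).le

lemma sm_lt_sp {D : Finset ℕ} {a b : ℕ} (hab : a ≤ b) (hb : b ∈ D) : sm g D a < sp g D b := by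
  unfold sp sm
  apply Finset.sum_lt_sum_of_subset (i := b)
  · intro i hi
    rw [Finset.mem_filter] at hi ⊢
    exact ⟨hi.1, by omega⟩
  · rw [Finset.mem_filter]
    exact ⟨hb, le_refl _⟩
  · rw [Finset.mem_filter]
    omega
  · exact hpos b
  · intro i _ _
    exact (hpos i).le

omit hpos in
lemma ws_eq {D : Finset ℕ} {a b : ℕ} (hab : a ≤ b) : ws g D a b = sp g D b - sm g D a := by
  unfold ws sp sm
  rw [eq_sub_iff_add_eq, ← Finset.sum_union]
  · apply Finset.sum_congr _ (fun _ _ => rfl)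
    ext i
    rw [Finset.mem_union, mem_win, Finset.mem_filter, Finset.mem_filter]
    constructor
    · rintro (h | h)
      · exact ⟨h.1, h.2.2⟩
      · exact ⟨h.1, by omega⟩
    · rintro ⟨h1, h2⟩
      rcases Nat.lt_or_ge i a with h | h
      · exact Or.inr ⟨h1, h⟩
      · exact Or.inl ⟨h1, h, h2⟩
  · rw [Finset.disjoint_left]
    intro i h1 h2
    rw [mem_win] at h1
    rw [Finset.mem_filter] at h2
    omega

lemma exists_window (hg : StrictMono g) {D : Finset ℕ} {p q : ℝ}
    (hp : p ∈ convexSet (D.image g)) (hq : q ∈ convexSet (D.image g)) (hpq : p < q) :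
    ∃ a ∈ D, ∃ b ∈ D, a ≤ b ∧ p = sm g D a ∧ q = sp g D b := by
  classical
  rw [mem_convexSet hg] at hp hq
  have hsp0 : ∀ b, 0 ≤ sp g D b := fun b => Finset.sum_nonneg (fun i _ => (hpos i).le)
  have hp0 : 0 ≤ p := by
    rcases hp with rfl | ⟨a, _, rfl⟩
    · exact le_refl _
    · exact hsp0 a
  rcases hq with rfl | ⟨b, hb, rfl⟩
  · exact absurd hpq (not_lt.2 hp0)
  have hne : (D.filter (fun i => p < sp g D i)).Nonempty := ⟨b, Finset.mem_filter.2 ⟨hb, hpq⟩⟩
  set a := (D.filter (fun i => p < sp g D i)).min' hne with ha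
  have hamem := Finset.min'_mem _ hne
  rw [← ha, Finset.mem_filter] at hamem
  have hmin : ∀ i ∈ D, i < a → sp g D i ≤ p := by
    intro i hi hia
    by_contra h
    push Not at h
    have := Finset.min'_le (D.filter (fun i => p < sp g D i)) i (Finset.mem_filter.2 ⟨hi, h⟩)
    rw [← ha] at this
    omega
  refine ⟨a, hamem.1, b, hb, ?_, ?_, rfl⟩
  · exact Finset.min'_le (D.filter (fun i => p < sp g D i)) b (Finset.mem_filter.2 ⟨hb, hpq⟩)
  · rcases hp with hp | ⟨a', ha', hp⟩
    · have : D.filter (fun i => i < a) = ∅ := by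
        apply Finset.filter_eq_empty_iff.2
        intro i hi hia
        have h1 := hmin i hi hia
        have h2 : g i ≤ sp g D i := by
          unfold sp
          exact Finset.single_le_sum (fun j _ => (hpos j).le) (Finset.mem_filter.2 ⟨hi, le_refl _⟩)
        have := hpos i
        rw [hp] at h1
        linarith
      rw [sm, this, hp]
      simp
    · have haa' : a' < a := by
        by_contra h
        push Not at h
        have := sp_mono hpos (D := D) h
        rw [← hp] at this
        linarith [hamem.2]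
      rw [hp, sp, sm]
      apply Finset.sum_congr _ (fun _ _ => rfl)
      apply Finset.filter_congr
      intro i hi
      constructor
      · intro h
        omega
      · intro h
        by_contra h'
        push Not at h'
        have h1 := hmin i hi h
        have h2 := sp_lt hpos h' hi
        rw [← hp] at h2
        linarith

open Classical in
/-- The quadruples of one set of gaps. -/
noncomputable def quadsOf (g : ℕ → ℝ) (m : ℕ) (D : Finset ℕ) : Finset (ℕ × ℕ × ℕ × ℕ) :=
  (range m ×ˢ (range m ×ˢ (range m ×ˢ range m))).filter fun s =>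
    IsQuad g D s.1 s.2.1 s.2.2.1 s.2.2.2

lemma ordered_le (hg : StrictMono g) {m : ℕ} {D : Finset ℕ} (hD : D ⊆ range m) :
    (ordered (convexSet (D.image g))).card ≤ (quadsOf g m D).card := by
  classical
  have hsub : ordered (convexSet (D.image g)) ⊆
      (quadsOf g m D).image (fun s => (sm g D s.1, sp g D s.2.1, sm g D s.2.2.1, sp g D s.2.2.2)) := by
    rintro ⟨x, y, z, w⟩ h
    simp only [ordered, Finset.mem_filter, Finset.mem_product] at h
    obtain ⟨⟨hx, hy, hz, hw⟩, hxy, hyz, hzw, he⟩ := h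
    obtain ⟨a, ha, b, hb, hab, h1, h2⟩ := exists_window hpos hg hx hy hxy
    obtain ⟨c, hc, d, hd, hcd, h3, h4⟩ := exists_window hpos hg hz hw hzw
    have hbc : b < c := by
      by_contra h
      push Not at h
      have := sm_lt_sp hpos h hb
      rw [← h3, ← h2] at this
      linarith
    rw [Finset.mem_image]
    refine ⟨(a, b, c, d), ?_, ?_⟩
    · simp only [quadsOf, Finset.mem_filter, Finset.mem_product]
      refine ⟨⟨hD ha, hD hb, hD hc, hD hd⟩, ha, hb, hc, hd, hab, hbc, hcd, ?_⟩
      rw [ws_eq hab, ws_eq hcd, ← h1, ← h2, ← h3, ← h4]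
      exact he
    · simp only [← h1, ← h2, ← h3, ← h4]
  exact (Finset.card_le_card hsub).trans Finset.card_image_le

end pos

lemma card_quads_eq (g : ℕ → ℝ) (m n : ℕ) :
    (quads g m n).card = ∑ D ∈ (range m).powersetCard n, (quadsOf g m D).card := by
  classical
  unfold quads quadsOf
  simp only [Finset.card_filter]
  rw [Finset.sum_product]

/-- The average bound, with indexed gaps. -/
theorem sum_energy_le {g : ℕ → ℝ} (hg : StrictMono g) (hg0 : 0 < g 0) {m k : ℕ} (hk : 1 ≤ k)
    (hkm : 2 * k ≤ m) :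
    ∑ D ∈ (range m).powersetCard (m - k), (energy (convexSet (D.image g)) : ℝ)
      ≤ 1808 * (m ^ 3 / k) * (m.choose (m - k)) := by
  classical
  obtain ⟨-, hk0, hm0, h2, h3⟩ := ratio_facts hk hkm
  have hpos : ∀ i, 0 < g i := fun i => lt_of_lt_of_le hg0 (hg.monotone (Nat.zero_le i))
  have h1 : ∀ D ∈ (range m).powersetCard (m - k), (energy (convexSet (D.image g)) : ℝ)
      ≤ 16 * m ^ 2 + 8 * (quadsOf g m D).card := by
    intro D hD
    rw [mem_powersetCard] at hD
    have e1 := energy_le (convexSet (D.image g))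
    have e2 := ordered_le hpos hg hD.1
    have e3 : (convexSet (D.image g)).card ≤ 2 * m := by
      refine (card_convexSet_le _).trans ?_
      have : (D.image g).card ≤ D.card := Finset.card_image_le
      rw [hD.2] at this
      omega
    have e4 : (convexSet (D.image g)).card ^ 2 ≤ (2 * m) ^ 2 := Nat.pow_le_pow_left e3 2
    have e5 : energy (convexSet (D.image g)) ≤ 16 * m ^ 2 + 8 * (quadsOf g m D).card := by
      nlinarith
    exact_mod_cast e5
  refine (Finset.sum_le_sum h1).trans ?_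
  rw [Finset.sum_add_distrib, Finset.sum_const, nsmul_eq_mul, card_powersetCard,
    Finset.card_range, ← Finset.mul_sum]
  have h4 : ∑ D ∈ (range m).powersetCard (m - k), ((quadsOf g m D).card : ℝ)
      = ((quads g m (m - k)).card : ℝ) := by
    rw [card_quads_eq]
    push_cast
    rfl
  rw [h4]
  have h5 := card_quads_le hg hg0 hk hkm
  have hN : (0 : ℝ) ≤ (m.choose (m - k) : ℕ) := by positivity
  have hkm' : (k : ℝ) ≤ m := by
    have : k ≤ m := by omega
    exact_mod_cast this
  have e2 : (m : ℝ) ^ 2 ≤ m ^ 3 / k := by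
    rw [le_div_iff₀ hk0]
    nlinarith [mul_pos hm0 hm0]
  have e3 : (m.choose (m - k) : ℝ) * (16 * m ^ 2) ≤ 16 * (m ^ 3 / k) * (m.choose (m - k)) := by
    nlinarith [mul_le_mul_of_nonneg_right e2 hN]
  nlinarith

end Pool.Agent.H44.Cvx
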