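import Pool.Agent.Lib_helper44.Cvx.Window

/-!
# The swap argument

helper44, for MP_f03f67_co.
-/

set_option autoImplicit false

open Finset

namespace Pool.Agent.H44.Cvx

/-- Replace `u` by `v`. -/
def swap (D : Finset ℕ) (u v : ℕ) : Finset ℕ := insert v (D.erase u)

lemma mem_swap {D : Finset ℕ} {u v i : ℕ} : i ∈ swap D u v ↔ i = v ∨ (i ≠ u ∧ i ∈ D) := by
  simp [swap]

lemma win_swap_inside {D : Finset ℕ} {a b u v : ℕ} (hau : a ≤ u) (hub : u ≤ b) (hav : a ≤ v)
    (hvb : v ≤ b) : win (swap D u v) a b = swap (win D a b) u v := by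
  ext i
  rw [mem_win, mem_swap, mem_swap, mem_win]
  constructor
  · rintro ⟨h | h, h1, h2⟩
    · exact Or.inl h
    · exact Or.inr ⟨h.1, h.2, h1, h2⟩
  · rintro (rfl | ⟨h1, h2, h3, h4⟩)
    · exact ⟨Or.inl rfl, hav, hvb⟩
    · exact ⟨Or.inr ⟨h1, h2⟩, h3, h4⟩

lemma win_swap_outside {D : Finset ℕ} {c d u v : ℕ} (hu : u < c) (hv : v < c) :
    win (swap D u v) c d = win D c d := by
  ext i
  rw [mem_win, mem_swap, mem_win]
  constructor
  · rintro ⟨h | h, h1, h2⟩
    · omega
    · exact ⟨h.2, h1, h2⟩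
  · rintro ⟨h1, h2, h3⟩
    exact ⟨Or.inr ⟨by omega, h1⟩, h2, h3⟩

lemma card_swap {D : Finset ℕ} {u v : ℕ} (hu : u ∈ D) (hv : v ∉ D) : (swap D u v).card = D.card := by
  unfold swap
  rw [Finset.card_insert_of_notMem, Finset.card_erase_of_mem hu]
  · have := Finset.card_pos.2 ⟨u, hu⟩
    omega
  · intro h
    exact hv (Finset.mem_of_mem_erase h)

lemma sum_swap {D : Finset ℕ} {u v : ℕ} (g : ℕ → ℝ) (hu : u ∈ D) (hv : v ∉ D) :
    ∑ i ∈ swap D u v, g i = ∑ i ∈ D, g i + (g v - g u) := by
  unfold swap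
  rw [Finset.sum_insert, ← Finset.add_sum_erase _ _ hu]
  · ring
  · intro h
    exact hv (Finset.mem_of_mem_erase h)

lemma swap_swap {D : Finset ℕ} {u v : ℕ} (hu : u ∈ D) (hv : v ∉ D) : swap (swap D u v) v u = D := by
  ext i
  rw [mem_swap, mem_swap]
  constructor
  · rintro (rfl | ⟨h1, h2 | h2⟩)
    · exact hu
    · exact absurd h2 h1
    · exact h2.2
  · intro h
    by_cases hi : i = u
    · exact Or.inl hi
    · refine Or.inr ⟨?_, Or.inr ⟨hi, h⟩⟩
      rintro rfl
      exact hv h

/-- The windows with `r` elements to the left of `c` whose sum equals the sum of the window from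
`c` to `d`, and with many possible swaps. -/
noncomputable def goodWindows (g : ℕ → ℝ) (m n c d r q : ℕ) (lam kap : ℝ) :
    Finset (Finset ℕ × ℕ × ℕ) :=
  open Classical in
  (((range m).powersetCard n) ×ˢ (range m ×ˢ range m)).filter fun s =>
    s.2.1 ∈ s.1 ∧ s.2.2 ∈ s.1 ∧ s.2.1 ≤ s.2.2 ∧ s.2.2 < c ∧ (win s.1 s.2.1 s.2.2).card = r ∧
      ws g s.1 s.2.1 s.2.2 = ws g s.1 c d ∧
      lam ≤ ((Ioc s.2.1 (s.2.1 + q) ∩ s.1).card : ℝ) ∧
      kap ≤ ((Ioc (s.2.1 + q) (s.2.1 + 2 * q) \ s.1).card : ℝ)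

lemma swap_bound {g : ℕ → ℝ} (hg : StrictMono g) (m n c d r q : ℕ) (hq : 2 * q + 2 ≤ r)
    (lam kap : ℝ) (hl : 0 ≤ lam) (hk : 0 ≤ kap) :
    ((goodWindows g m n c d r q lam kap).card : ℝ) * (lam * kap) ≤ q * (m.choose n) := by
  classical
  set S := goodWindows g m n c d r q lam kap with hS
  let Ω : Finset (Σ _ : (Finset ℕ × ℕ × ℕ), ℕ × ℕ) :=
    S.sigma (fun s => (Ioc s.2.1 (s.2.1 + q) ∩ s.1) ×ˢ (Ioc (s.2.1 + q) (s.2.1 + 2 * q) \ s.1))
  have hΩ : (Ω.card : ℝ) = ∑ s ∈ S, ((Ioc s.2.1 (s.2.1 + q) ∩ s.1).card : ℝ)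
      * ((Ioc (s.2.1 + q) (s.2.1 + 2 * q) \ s.1).card : ℝ) := by
    rw [Finset.card_sigma]
    push_cast
    apply Finset.sum_congr rfl
    intro s _
    rw [Finset.card_product]
    push_cast
    rfl
  have hS' : ∀ s ∈ S, (s.1 ⊆ range m ∧ s.1.card = n) ∧ s.2.1 < m ∧ s.2.2 < m ∧
      s.2.1 ∈ s.1 ∧ s.2.2 ∈ s.1 ∧ s.2.1 ≤ s.2.2 ∧ s.2.2 < c ∧ (win s.1 s.2.1 s.2.2).card = r ∧
      ws g s.1 s.2.1 s.2.2 = ws g s.1 c d ∧
      lam ≤ ((Ioc s.2.1 (s.2.1 + q) ∩ s.1).card : ℝ) ∧
      kap ≤ ((Ioc (s.2.1 + q) (s.2.1 + 2 * q) \ s.1).card : ℝ) := by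
    intro s hs
    rw [hS, goodWindows, Finset.mem_filter, Finset.mem_product, Finset.mem_product,
      mem_powersetCard, Finset.mem_range, Finset.mem_range] at hs
    obtain ⟨⟨h1, h2, h3⟩, h4⟩ := hs
    exact ⟨h1, h2, h3, h4⟩
  have h1 : (S.card : ℝ) * (lam * kap) ≤ Ω.card := by
    rw [hΩ, ← nsmul_eq_mul, ← Finset.sum_const]
    apply Finset.sum_le_sum
    intro s hs
    obtain ⟨-, -, -, -, -, -, -, -, -, h8, h9⟩ := hS' s hs
    exact mul_le_mul h8 h9 hk (hl.trans h8)
  have h2 : Ω.card ≤ (((range m).powersetCard n) ×ˢ (Ioc q (2 * q))).card := by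
    apply Finset.card_le_card_of_injOn (fun x => (swap x.1.1 x.2.1 x.2.2, x.2.2 - x.1.2.1))
    · rintro ⟨⟨D, a, b⟩, ⟨u, v⟩⟩ hx
      simp only [Finset.mem_coe] at hx ⊢
      rw [Finset.mem_sigma, Finset.mem_product, Finset.mem_inter, Finset.mem_sdiff,
        Finset.mem_Ioc, Finset.mem_Ioc] at hx
      simp only at hx
      obtain ⟨hs, ⟨⟨hu1, hu2⟩, huD⟩, ⟨hv1, hv2⟩, hvD⟩ := hx
      obtain ⟨⟨hD, hDc⟩, ham, hbm, haD, hbD, hab, hbc, hr, hws, -, -⟩ := hS' _ hs
      simp only at hD hDc ham hbm haD hbD hab hbc hr hws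
      have hlen := card_win_le (D := D) hab
      rw [hr] at hlen
      rw [Finset.mem_product, mem_powersetCard, Finset.mem_Ioc]
      refine ⟨⟨?_, ?_⟩, ?_, ?_⟩
      · intro i hi
        simp only at hi
        rw [mem_swap] at hi
        rcases hi with rfl | hi
        · rw [Finset.mem_range]
          omega
        · exact hD hi.2
      · simp only
        rw [card_swap huD hvD, hDc]
      · simp only
        omega
      · simp only
        omega
    · rintro ⟨⟨D, a, b⟩, ⟨u, v⟩⟩ hx ⟨⟨D', a', b'⟩, ⟨u', v'⟩⟩ hx' heq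
      simp only [Finset.mem_coe] at hx hx'
      rw [Finset.mem_sigma, Finset.mem_product, Finset.mem_inter, Finset.mem_sdiff,
        Finset.mem_Ioc, Finset.mem_Ioc] at hx hx'
      simp only at hx hx'
      obtain ⟨hs, ⟨⟨hu1, hu2⟩, huD⟩, ⟨hv1, hv2⟩, hvD⟩ := hx
      obtain ⟨⟨hD, hDc⟩, ham, hbm, haD, hbD, hab, hbc, hr, hws, -, -⟩ := hS' _ hs
      simp only at hD hDc ham hbm haD hbD hab hbc hr hws
      obtain ⟨hs', ⟨⟨hu1', hu2'⟩, huD'⟩, ⟨hv1', hv2'⟩, hvD'⟩ := hx'
      obtain ⟨⟨hD', hDc'⟩, ham', hbm', haD', hbD', hab', hbc', hr', hws', -, -⟩ := hS' _ hs'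
      simp only at hD' hDc' ham' hbm' haD' hbD' hab' hbc' hr' hws'
      simp only [Prod.mk.injEq] at heq
      obtain ⟨hE, hva⟩ := heq
      have hlen := card_win_le (D := D) hab
      rw [hr] at hlen
      have hlen' := card_win_le (D := D') hab'
      rw [hr'] at hlen'
      set E := swap D u v with hEdef
      -- facts about the first preimage
      have haE : a ∈ E := mem_swap.2 (Or.inr ⟨by omega, haD⟩)
      have hbE : b ∈ E := mem_swap.2 (Or.inr ⟨by omega, hbD⟩)
      have huW : u ∈ win D a b := mem_win.2 ⟨huD, by omega, by omega⟩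
      have hvW : v ∉ win D a b := fun h => hvD (mem_win.1 h).1
      have hcE : (win E a b).card = r := by
        rw [hEdef, win_swap_inside (by omega) (by omega) (by omega) (by omega), card_swap huW hvW, hr]
      have hsE : ws g E a b = ws g E c d + (g v - g u) := by
        have e1 : ws g E a b = ws g D a b + (g v - g u) := by
          unfold ws
          rw [hEdef, win_swap_inside (by omega) (by omega) (by omega) (by omega), sum_swap g huW hvW]
        have e2 : ws g E c d = ws g D c d := by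
          unfold ws
          rw [hEdef, win_swap_outside (by omega) (by omega)]
        rw [e1, e2, hws]
      -- facts about the second preimage
      have haE' : a' ∈ E := by rw [hE]; exact mem_swap.2 (Or.inr ⟨by omega, haD'⟩)
      have hbE' : b' ∈ E := by rw [hE]; exact mem_swap.2 (Or.inr ⟨by omega, hbD'⟩)
      have huW' : u' ∈ win D' a' b' := mem_win.2 ⟨huD', by omega, by omega⟩
      have hvW' : v' ∉ win D' a' b' := fun h => hvD' (mem_win.1 h).1
      have hcE' : (win E a' b').card = r := by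
        rw [hE, win_swap_inside (by omega) (by omega) (by omega) (by omega), card_swap huW' hvW', hr']
      have hsE' : ws g E a' b' = ws g E c d + (g v' - g u') := by
        have e1 : ws g E a' b' = ws g D' a' b' + (g v' - g u') := by
          unfold ws
          rw [hE, win_swap_inside (by omega) (by omega) (by omega) (by omega), sum_swap g huW' hvW']
        have e2 : ws g E c d = ws g D' c d := by
          unfold ws
          rw [hE, win_swap_outside (by omega) (by omega)]
        rw [e1, e2, hws']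
      have haa : a = a' := by
        rcases lt_trichotomy a a' with h | h | h
        · exfalso
          obtain ⟨-, h2⟩ := shift hg.monotone haE hbE' hab hab' h (hcE.trans hcE'.symm)
          have i1 : g v' < g b' := hg (by omega)
          have i2 : g a' < g u' := hg (by omega)
          have i3 : g a < g a' := hg h
          have i4 : g u < g v := hg (by omega)
          linarith
        · exact h
        · exfalso
          obtain ⟨-, h2⟩ := shift hg.monotone haE' hbE hab' hab h (hcE'.trans hcE.symm)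
          have i1 : g v < g b := hg (by omega)
          have i2 : g a < g u := hg (by omega)
          have i3 : g a' < g a := hg h
          have i4 : g u' < g v' := hg (by omega)
          linarith
      subst haa
      have hbb : b = b' := right_unique hbE hbE' hab hab' (hcE.trans hcE'.symm)
      subst hbb
      have hvv : v = v' := by omega
      subst hvv
      have huu : u = u' := by
        apply hg.injective
        linarith
      subst huu
      have hDD : D = D' := by
        rw [← swap_swap huD hvD, ← swap_swap huD' hvD', ← hEdef, hE]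
      subst hDD
      rfl
  rw [Finset.card_product, card_powersetCard, Finset.card_range, Nat.card_Ioc] at h2
  have h3 : (Ω.card : ℝ) ≤ (m.choose n : ℕ) * ((2 * q - q : ℕ) : ℝ) := by exact_mod_cast h2
  have h4 : ((2 * q - q : ℕ) : ℝ) = q := by
    have : 2 * q - q = q := by omega
    rw [this]
  rw [h4] at h3
  linarith

end Pool.Agent.H44.Cvx
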