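import Pool.Agent.Lib_helper44.Cvx.Count

/-!
# The number of coincidences, summed over all sets of gaps

helper44, for MP_f03f67_co.
-/

set_option autoImplicit false

open Finset

namespace Pool.Agent.H44.Cvx

/-- the block length used for windows with `r` elements -/
def blk (r : ℕ) : ℕ := (r - 2) / 2

lemma blk_facts {r : ℕ} (hr : 4 ≤ r) : 1 ≤ blk r ∧ 2 * blk r + 2 ≤ r ∧ r ≤ 5 * blk r := by
  unfold blk
  omega

/-- The window of `r` elements starting at `a` admits many swaps. -/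
def IsGood (m k : ℕ) (D : Finset ℕ) (a r : ℕ) : Prop :=
  (blk r : ℝ) / 4 ≤ ((Ioc a (a + blk r) ∩ D).card : ℝ) ∧
    (blk r : ℝ) * k / (2 * m) ≤ ((Ioc (a + blk r) (a + 2 * blk r) \ D).card : ℝ)

variable {g : ℕ → ℝ} {m k : ℕ}

open Classical in
lemma part0 (hg : StrictMono g) (hg0 : 0 < g 0) (n : ℕ) :
    (((quads g m n).filter (fun s => (win s.1 s.2.1 s.2.2.1).card ≤ 3)).card : ℝ)
      ≤ 16 * m * (m.choose n) := by
  have h := Finset.card_le_card_of_injOn
    (s := (quads g m n).filter (fun s => (win s.1 s.2.1 s.2.2.1).card ≤ 3))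
    (t := ((range m).powersetCard n) ×ˢ (range m ×ˢ (range 4 ×ˢ range 4)))
    (fun s => (s.1, s.2.1, (win s.1 s.2.1 s.2.2.1).card, (win s.1 s.2.2.2.1 s.2.2.2.2).card)) ?_ ?_
  · rw [Finset.card_product, Finset.card_product, Finset.card_product, card_powersetCard,
      Finset.card_range, Finset.card_range] at h
    have h' : (((quads g m n).filter (fun s => (win s.1 s.2.1 s.2.2.1).card ≤ 3)).card : ℝ)
        ≤ ((m.choose n * (m * (4 * 4)) : ℕ) : ℝ) := by exact_mod_cast h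
    push_cast at h'
    linarith
  · rintro ⟨D, a, b, c, d⟩ hs
    rw [Finset.mem_coe, Finset.mem_filter, mem_quads] at hs
    obtain ⟨⟨hD, hq⟩, hr⟩ := hs
    have h1 := quad_facts hg hg0 hq
    simp only at hr
    simp only [Finset.mem_coe, Finset.mem_product, Finset.mem_range]
    refine ⟨hD, Finset.mem_range.1 ((mem_powersetCard.1 hD).1 hq.1), by omega, by omega⟩
  · rintro ⟨D, a, b, c, d⟩ hs ⟨D', a', b', c', d'⟩ hs' heq
    rw [Finset.mem_coe, Finset.mem_filter, mem_quads] at hs hs'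
    simp only [Prod.mk.injEq] at heq
    obtain ⟨rfl, rfl, h1, h2⟩ := heq
    obtain ⟨rfl, rfl, rfl⟩ := quad_inj_left hg hs.1.2 hs'.1.2 h1 h2
    rfl

lemma range_block (a q : ℕ) (h : a + 2 * q < m) :
    Ioc a (a + q) ⊆ range m ∧ Ioc (a + q) (a + 2 * q) ⊆ range m := by
  constructor
  · intro i hi
    rw [Finset.mem_Ioc] at hi
    rw [Finset.mem_range]
    omega
  · intro i hi
    rw [Finset.mem_Ioc] at hi
    rw [Finset.mem_range]
    omega

open Classical in
/-- bad sets -/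
noncomputable def badSets (m k a r : ℕ) : Finset (Finset ℕ) :=
  ((range m).powersetCard (m - k)).filter fun D => a + 2 * blk r < m ∧ ¬ IsGood m k D a r

open Classical in
lemma card_badSets (hk : 1 ≤ k) (hkm : 2 * k ≤ m) {a r : ℕ} (hr : 4 ≤ r) :
    ((badSets m k a r).card : ℝ) * r ≤ 40 * (m / k) * (m.choose (m - k)) := by
  obtain ⟨h1, hk0, hm0, h2, h3⟩ := ratio_facts hk hkm
  obtain ⟨hq1, hq2, hq3⟩ := blk_facts hr
  have hN : (0 : ℝ) ≤ (m.choose (m - k) : ℕ) := by positivity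
  by_cases ha : a + 2 * blk r < m
  · obtain ⟨hB1, hB2⟩ := range_block (m := m) a (blk r) ha
    set q := blk r with hq
    have hc1 : (Ioc a (a + q)).card = q := by rw [Nat.card_Ioc]; omega
    have hc2 : (Ioc (a + q) (a + 2 * q)).card = q := by rw [Nat.card_Ioc]; omega
    have hq0 : (0 : ℝ) < q := by exact_mod_cast hq1
    have e1 := few_bound hk hkm hB1 (by rw [hc1]; exact hq1)
      (fun D => ((Ioc a (a + q) ∩ D).card : ℝ) < q / 4) (by
        intro D _ hD
        rw [hc1]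
        exact hD.le)
    have e2 := many_bound hk hkm hB2 (by rw [hc2]; exact hq1)
      (fun D => ((Ioc (a + q) (a + 2 * q) \ D).card : ℝ) < q * k / (2 * m)) (by
        intro D _ hD
        rw [hc2]
        exact hD.le)
    rw [hc1] at e1
    rw [hc2] at e2
    have hsub : badSets m k a r ⊆
        (((range m).powersetCard (m - k)).filter (fun D => ((Ioc a (a + q) ∩ D).card : ℝ) < q / 4))
        ∪ (((range m).powersetCard (m - k)).filter
            (fun D => ((Ioc (a + q) (a + 2 * q) \ D).card : ℝ) < q * k / (2 * m))) := by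
      intro D hD
      rw [badSets, Finset.mem_filter] at hD
      obtain ⟨hD1, -, hD2⟩ := hD
      rw [Finset.mem_union, Finset.mem_filter, Finset.mem_filter]
      unfold IsGood at hD2
      rw [not_and_or, not_le, not_le] at hD2
      rcases hD2 with h | h
      · exact Or.inl ⟨hD1, h⟩
      · exact Or.inr ⟨hD1, h⟩
    have h4 : ((badSets m k a r).card : ℝ) ≤ 8 / q * (m.choose (m - k))
        + 4 * m / (q * k) * (m.choose (m - k)) := by
      have := (Finset.card_le_card hsub).trans (Finset.card_union_le _ _)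
      have h5 : ((badSets m k a r).card : ℝ) ≤ _ := Nat.cast_le.2 this
      rw [Nat.cast_add] at h5
      linarith
    have hr5 : (r : ℝ) ≤ 5 * q := by exact_mod_cast hq3
    have hr0 : (0 : ℝ) ≤ r := by positivity
    have hmk : 2 ≤ (m : ℝ) / k := by
      rw [le_div_iff₀ hk0]
      exact_mod_cast hkm
    have h6 : 8 / (q : ℝ) * (m.choose (m - k)) + 4 * m / (q * k) * (m.choose (m - k))
        ≤ 8 * (m / k) / q * (m.choose (m - k)) := by
      rw [← add_mul]
      apply mul_le_mul_of_nonneg_right _ hN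
      have : 4 * (m : ℝ) / (q * k) = 4 * (m / k) / q := by field_simp
      rw [this, ← add_div]
      apply div_le_div_of_nonneg_right _ hq0.le
      linarith
    calc ((badSets m k a r).card : ℝ) * r ≤ (8 * (m / k) / q * (m.choose (m - k))) * (5 * q) := by
          apply mul_le_mul (h4.trans h6) hr5 hr0
          positivity
      _ = 40 * (m / k) * (m.choose (m - k)) := by
          field_simp
          ring
  · have : badSets m k a r = ∅ := by
      rw [badSets]
      apply Finset.filter_eq_empty_iff.2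
      intro D _ h
      exact ha h.1
    rw [this]
    simp only [card_empty, Nat.cast_zero, zero_mul]
    positivity

open Classical in
lemma part1 (hg : StrictMono g) (hg0 : 0 < g 0) (hk : 1 ≤ k) (hkm : 2 * k ≤ m) :
    (((quads g m (m - k)).filter (fun s => 4 ≤ (win s.1 s.2.1 s.2.2.1).card ∧
      ¬ IsGood m k s.1 s.2.1 (win s.1 s.2.1 s.2.2.1).card)).card : ℝ)
      ≤ 40 * (m ^ 3 / k) * (m.choose (m - k)) := by
  have h := card_le_sum_fibers ((quads g m (m - k)).filter
    (fun s => 4 ≤ (win s.1 s.2.1 s.2.2.1).card ∧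
      ¬ IsGood m k s.1 s.2.1 (win s.1 s.2.1 s.2.2.1).card))
    ((Icc 4 m) ×ˢ (range m))
    (fun s => ((win s.1 s.2.1 s.2.2.1).card, s.2.1)) ?_
    (fun s => (s.1, (win s.1 s.2.2.2.1 s.2.2.2.2).card))
    (fun p => badSets m k p.2 p.1 ×ˢ range p.1) ?_ ?_
  · have h' : (((quads g m (m - k)).filter (fun s => 4 ≤ (win s.1 s.2.1 s.2.2.1).card ∧
        ¬ IsGood m k s.1 s.2.1 (win s.1 s.2.1 s.2.2.1).card)).card : ℝ)
        ≤ ((∑ p ∈ (Icc 4 m) ×ˢ (range m), (badSets m k p.2 p.1 ×ˢ range p.1).card : ℕ) : ℝ) :=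
      Nat.cast_le.2 h
    refine h'.trans ?_
    push_cast
    have h2 : ∀ p ∈ (Icc 4 m) ×ˢ (range m), ((badSets m k p.2 p.1 ×ˢ range p.1).card : ℝ)
        ≤ 40 * (m / k) * (m.choose (m - k)) := by
      intro p hp
      rw [Finset.mem_product, Finset.mem_Icc] at hp
      rw [Finset.card_product, Finset.card_range]
      push_cast
      exact card_badSets hk hkm hp.1.1
    refine (Finset.sum_le_sum h2).trans ?_
    rw [Finset.sum_const, nsmul_eq_mul, Finset.card_product, Finset.card_range, Nat.card_Icc]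
    have h3 : (((m + 1 - 4) * m : ℕ) : ℝ) ≤ m * m := by
      have : (m + 1 - 4) * m ≤ m * m := Nat.mul_le_mul_right _ (by omega)
      exact_mod_cast this
    have h4 : (0 : ℝ) ≤ 40 * (m / k) * (m.choose (m - k)) := by positivity
    calc (((m + 1 - 4) * m : ℕ) : ℝ) * (40 * (m / k) * (m.choose (m - k)))
        ≤ (m * m) * (40 * (m / k) * (m.choose (m - k))) := mul_le_mul_of_nonneg_right h3 h4
      _ = _ := by ring
  · rintro ⟨D, a, b, c, d⟩ hs
    rw [Finset.mem_filter, mem_quads] at hs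
    obtain ⟨⟨hD, hq⟩, hr, -⟩ := hs
    simp only at hr
    have hsub := (mem_powersetCard.1 hD).1
    have h1 := Finset.mem_range.1 (hsub hq.1)
    have h2 : (win D a b).card ≤ m := by
      refine (Finset.card_le_card (Finset.inter_subset_left.trans hsub)).trans ?_
      rw [Finset.card_range]
    simp only [Finset.mem_product, Finset.mem_Icc, Finset.mem_range]
    exact ⟨⟨hr, h2⟩, h1⟩
  · rintro ⟨D, a, b, c, d⟩ hs
    rw [Finset.mem_filter, mem_quads] at hs
    obtain ⟨⟨hD, hq⟩, hr, hbad⟩ := hs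
    simp only at hr hbad
    have h1 := quad_facts hg hg0 hq
    have hb := Finset.mem_range.1 ((mem_powersetCard.1 hD).1 hq.2.1)
    obtain ⟨hq1, hq2, hq3⟩ := blk_facts hr
    have hlen := card_win_le (D := D) hq.2.2.2.2.1
    simp only [Finset.mem_product, Finset.mem_range, badSets, Finset.mem_filter]
    exact ⟨⟨hD, by omega, hbad⟩, h1⟩
  · rintro ⟨D, a, b, c, d⟩ hs ⟨D', a', b', c', d'⟩ hs' heq1 heq2
    rw [Finset.mem_filter, mem_quads] at hs hs'
    simp only [Prod.mk.injEq] at heq1 heq2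
    obtain ⟨h1, rfl⟩ := heq1
    obtain ⟨rfl, h2⟩ := heq2
    obtain ⟨rfl, rfl, rfl⟩ := quad_inj_left hg hs.1.2 hs'.1.2 h1 h2
    rfl

open Classical in
/-- sets with few elements between `c` and `d` -/
noncomputable def fewSets (m k c d : ℕ) : Finset (Finset ℕ) :=
  ((range m).powersetCard (m - k)).filter fun D => c ≤ d ∧ d < m ∧
    ((Icc c d ∩ D).card : ℝ) ≤ ((d - c + 1 : ℕ) : ℝ) / 4

open Classical in
lemma card_fewSets (hk : 1 ≤ k) (hkm : 2 * k ≤ m) (c d : ℕ) :
    ((fewSets m k c d).card : ℝ) * ((d - c + 1 : ℕ) : ℝ) ≤ 8 * (m.choose (m - k)) := by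
  by_cases hcd : c ≤ d ∧ d < m
  · have hB : Icc c d ⊆ range m := by
      intro i hi
      rw [Finset.mem_Icc] at hi
      rw [Finset.mem_range]
      omega
    have hc : (Icc c d).card = d - c + 1 := by rw [Nat.card_Icc]; omega
    have e := few_bound hk hkm hB (by rw [hc]; omega)
      (fun D => c ≤ d ∧ d < m ∧ ((Icc c d ∩ D).card : ℝ) ≤ ((d - c + 1 : ℕ) : ℝ) / 4) (by
        intro D _ hD
        rw [hc]
        exact hD.2.2)
    rw [hc] at e
    have h0 : (0 : ℝ) < ((d - c + 1 : ℕ) : ℝ) := by positivity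
    have h1 : ((fewSets m k c d).card : ℝ) ≤ 8 / ((d - c + 1 : ℕ) : ℝ) * (m.choose (m - k)) := e
    calc ((fewSets m k c d).card : ℝ) * ((d - c + 1 : ℕ) : ℝ)
        ≤ (8 / ((d - c + 1 : ℕ) : ℝ) * (m.choose (m - k))) * ((d - c + 1 : ℕ) : ℝ) :=
          mul_le_mul_of_nonneg_right h1 h0.le
      _ = _ := by field_simp
  · have : fewSets m k c d = ∅ := by
      rw [fewSets]
      apply Finset.filter_eq_empty_iff.2
      intro D _ h
      exact hcd ⟨h.1, h.2.1⟩
    rw [this]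
    simp

open Classical in
lemma part2 (hg : StrictMono g) (hg0 : 0 < g 0) (hk : 1 ≤ k) (hkm : 2 * k ≤ m) :
    (((quads g m (m - k)).filter (fun s =>
      4 * (win s.1 s.2.1 s.2.2.1).card < s.2.2.2.2 - s.2.2.2.1 + 1)).card : ℝ)
      ≤ 8 * m ^ 2 * (m.choose (m - k)) := by
  have h := card_le_sum_fibers ((quads g m (m - k)).filter
    (fun s => 4 * (win s.1 s.2.1 s.2.2.1).card < s.2.2.2.2 - s.2.2.2.1 + 1))
    ((range m) ×ˢ (range m))
    (fun s => (s.2.2.2.1, s.2.2.2.2)) ?_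
    (fun s => (s.1, (win s.1 s.2.1 s.2.2.1).card))
    (fun p => fewSets m k p.1 p.2 ×ˢ range (p.2 - p.1 + 1)) ?_ ?_
  · have h' : (((quads g m (m - k)).filter (fun s =>
        4 * (win s.1 s.2.1 s.2.2.1).card < s.2.2.2.2 - s.2.2.2.1 + 1)).card : ℝ)
        ≤ ((∑ p ∈ (range m) ×ˢ (range m),
          (fewSets m k p.1 p.2 ×ˢ range (p.2 - p.1 + 1)).card : ℕ) : ℝ) :=
      Nat.cast_le.2 h
    refine h'.trans ?_
    push_cast
    have h2 : ∀ p ∈ (range m) ×ˢ (range m),
        ((fewSets m k p.1 p.2 ×ˢ range (p.2 - p.1 + 1)).card : ℝ) ≤ 8 * (m.choose (m - k)) := by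
      intro p _
      rw [Finset.card_product, Finset.card_range, Nat.cast_mul]
      exact card_fewSets hk hkm p.1 p.2
    refine (Finset.sum_le_sum h2).trans ?_
    rw [Finset.sum_const, nsmul_eq_mul, Finset.card_product, Finset.card_range]
    push_cast
    apply le_of_eq
    ring
  · rintro ⟨D, a, b, c, d⟩ hs
    rw [Finset.mem_filter, mem_quads] at hs
    obtain ⟨⟨hD, hq⟩, -⟩ := hs
    have hsub := (mem_powersetCard.1 hD).1
    simp only [Finset.mem_product]
    exact ⟨hsub hq.2.2.1, hsub hq.2.2.2.1⟩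
  · rintro ⟨D, a, b, c, d⟩ hs
    rw [Finset.mem_filter, mem_quads] at hs
    obtain ⟨⟨hD, hq⟩, hr⟩ := hs
    simp only at hr
    have h1 := quad_facts hg hg0 hq
    have hd := Finset.mem_range.1 ((mem_powersetCard.1 hD).1 hq.2.2.2.1)
    have hcd : c ≤ d := hq.2.2.2.2.2.2.1
    simp only [Finset.mem_product, Finset.mem_range, fewSets, Finset.mem_filter]
    refine ⟨⟨hD, hcd, hd, ?_⟩, by omega⟩
    have h3 : (Icc c d ∩ D).card = (win D c d).card := by rw [win, Finset.inter_comm]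
    rw [h3, le_div_iff₀ (by norm_num)]
    have h4 : (win D c d).card * 4 ≤ d - c + 1 := by omega
    exact_mod_cast h4
  · rintro ⟨D, a, b, c, d⟩ hs ⟨D', a', b', c', d'⟩ hs' heq1 heq2
    rw [Finset.mem_filter, mem_quads] at hs hs'
    simp only [Prod.mk.injEq] at heq1 heq2
    obtain ⟨rfl, rfl⟩ := heq1
    obtain ⟨rfl, h2⟩ := heq2
    obtain ⟨rfl, rfl⟩ := quad_inj_right hg hs.1.2 hs'.1.2 h2
    rfl

lemma card_goodWindows_le (hg : StrictMono g) (hk : 1 ≤ k) (hkm : 2 * k ≤ m) {r : ℕ} (hr : 4 ≤ r)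
    (c d : ℕ) :
    ((goodWindows g m (m - k) c d r (blk r) ((blk r : ℝ) / 4) ((blk r : ℝ) * k / (2 * m))).card : ℝ)
      * (4 * r) ≤ 160 * (m / k) * (m.choose (m - k)) := by
  obtain ⟨h1, hk0, hm0, h2, h3⟩ := ratio_facts hk hkm
  obtain ⟨hq1, hq2, hq3⟩ := blk_facts hr
  set q := blk r with hq
  have hq0 : (0 : ℝ) < q := by exact_mod_cast hq1
  have h := swap_bound hg m (m - k) c d r q hq2 ((q : ℝ) / 4) ((q : ℝ) * k / (2 * m))
    (by positivity) (by positivity)
  set W : ℝ := ((goodWindows g m (m - k) c d r q ((q : ℝ) / 4) ((q : ℝ) * k / (2 * m))).card : ℝ)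
  have hW : 0 ≤ W := by positivity
  have hr5 : (r : ℝ) ≤ 5 * q := by exact_mod_cast hq3
  have h4 : W * q ≤ 8 * (m / k) * (m.choose (m - k)) := by
    have e1 : W * ((q : ℝ) / 4 * ((q : ℝ) * k / (2 * m))) = (W * q) * (q * k / (8 * m)) := by
      field_simp
      ring
    rw [e1] at h
    have e2 : (q : ℝ) * (m.choose (m - k)) = (8 * (m / k) * (m.choose (m - k))) * (q * k / (8 * m)) := by
      field_simp
    rw [e2] at h
    exact le_of_mul_le_mul_right h (by positivity)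
  calc W * (4 * r) ≤ W * (4 * (5 * q)) := by
        apply mul_le_mul_of_nonneg_left _ hW
        linarith
    _ = 20 * (W * q) := by ring
    _ ≤ 20 * (8 * (m / k) * (m.choose (m - k))) := by linarith
    _ = _ := by ring

open Classical in
lemma part3 (hg : StrictMono g) (hk : 1 ≤ k) (hkm : 2 * k ≤ m) :
    (((quads g m (m - k)).filter (fun s => 4 ≤ (win s.1 s.2.1 s.2.2.1).card ∧
      IsGood m k s.1 s.2.1 (win s.1 s.2.1 s.2.2.1).card ∧
      s.2.2.2.2 - s.2.2.2.1 + 1 ≤ 4 * (win s.1 s.2.1 s.2.2.1).card)).card : ℝ)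
      ≤ 160 * (m ^ 3 / k) * (m.choose (m - k)) := by
  set S := (quads g m (m - k)).filter (fun s => 4 ≤ (win s.1 s.2.1 s.2.2.1).card ∧
      IsGood m k s.1 s.2.1 (win s.1 s.2.1 s.2.2.1).card ∧
      s.2.2.2.2 - s.2.2.2.1 + 1 ≤ 4 * (win s.1 s.2.1 s.2.2.1).card) with hSdef
  have h := card_le_sum_fibers S
    ((Icc 4 m) ×ˢ (range m))
    (fun s => ((win s.1 s.2.1 s.2.2.1).card, s.2.2.2.1)) ?_
    (fun s => ((⟨s.2.2.2.2 - s.2.2.2.1, (s.1, s.2.1, s.2.2.1)⟩ :
      Σ _ : ℕ, (Finset ℕ × ℕ × ℕ))))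
    (fun p => (range (4 * p.1)).sigma (fun e => goodWindows g m (m - k) p.2 (p.2 + e) p.1
      (blk p.1) ((blk p.1 : ℝ) / 4) ((blk p.1 : ℝ) * k / (2 * m)))) ?_ ?_
  · have h' : (S.card : ℝ) ≤ ((∑ p ∈ (Icc 4 m) ×ˢ (range m), ((range (4 * p.1)).sigma
          (fun e => goodWindows g m (m - k) p.2 (p.2 + e) p.1
      (blk p.1) ((blk p.1 : ℝ) / 4) ((blk p.1 : ℝ) * k / (2 * m)))).card : ℕ) : ℝ) :=
      Nat.cast_le.2 h
    refine h'.trans ?_
    push_cast
    have h2 : ∀ p ∈ (Icc 4 m) ×ˢ (range m), (((range (4 * p.1)).sigma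
          (fun e => goodWindows g m (m - k) p.2 (p.2 + e) p.1
      (blk p.1) ((blk p.1 : ℝ) / 4) ((blk p.1 : ℝ) * k / (2 * m)))).card : ℝ)
        ≤ 160 * (m / k) * (m.choose (m - k)) := by
      intro p hp
      rw [Finset.mem_product, Finset.mem_Icc] at hp
      have hp4 : (0 : ℝ) < 4 * p.1 := by
        have : 0 < p.1 := by omega
        have : (0 : ℝ) < p.1 := by exact_mod_cast this
        linarith
      rw [Finset.card_sigma]
      push_cast
      have h3 : ∀ e ∈ range (4 * p.1), ((goodWindows g m (m - k) p.2 (p.2 + e) p.1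
          (blk p.1) ((blk p.1 : ℝ) / 4) ((blk p.1 : ℝ) * k / (2 * m))).card : ℝ)
          ≤ 160 * (m / k) * (m.choose (m - k)) / (4 * p.1) := by
        intro e _
        rw [le_div_iff₀ hp4]
        exact card_goodWindows_le hg hk hkm hp.1.1 p.2 (p.2 + e)
      refine (Finset.sum_le_sum h3).trans ?_
      rw [Finset.sum_const, nsmul_eq_mul, Finset.card_range]
      push_cast
      rw [mul_div_cancel₀ _ hp4.ne']
    refine (Finset.sum_le_sum h2).trans ?_
    rw [Finset.sum_const, nsmul_eq_mul, Finset.card_product, Finset.card_range, Nat.card_Icc]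
    have h3 : (((m + 1 - 4) * m : ℕ) : ℝ) ≤ m * m := by
      have : (m + 1 - 4) * m ≤ m * m := Nat.mul_le_mul_right _ (by omega)
      exact_mod_cast this
    have h4 : (0 : ℝ) ≤ 160 * (m / k) * (m.choose (m - k)) := by positivity
    calc (((m + 1 - 4) * m : ℕ) : ℝ) * (160 * (m / k) * (m.choose (m - k)))
        ≤ (m * m) * (160 * (m / k) * (m.choose (m - k))) := mul_le_mul_of_nonneg_right h3 h4
      _ = _ := by ring
  · rintro ⟨D, a, b, c, d⟩ hs
    rw [hSdef, Finset.mem_filter, mem_quads] at hs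
    obtain ⟨⟨hD, hq⟩, hr, -⟩ := hs
    simp only at hr
    have hsub := (mem_powersetCard.1 hD).1
    have h2 : (win D a b).card ≤ m := by
      refine (Finset.card_le_card (Finset.inter_subset_left.trans hsub)).trans ?_
      rw [Finset.card_range]
    simp only [Finset.mem_product, Finset.mem_Icc]
    exact ⟨⟨hr, h2⟩, hsub hq.2.2.1⟩
  · rintro ⟨D, a, b, c, d⟩ hs
    rw [hSdef, Finset.mem_filter, mem_quads] at hs
    obtain ⟨⟨hD, hq⟩, hr, hgood, hlen⟩ := hs
    simp only at hr hgood hlen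
    obtain ⟨ha, hb, hc, hd, hab, hbc, hcd, hs⟩ := hq
    have hsub := (mem_powersetCard.1 hD).1
    have hcd' : c + (d - c) = d := by omega
    simp only [Finset.mem_sigma, Finset.mem_range]
    refine ⟨by omega, ?_⟩
    rw [hcd', goodWindows, Finset.mem_filter, Finset.mem_product, Finset.mem_product]
    exact ⟨⟨hD, hsub ha, hsub hb⟩, ha, hb, hab, hbc, rfl, hs, hgood.1, hgood.2⟩
  · rintro ⟨D, a, b, c, d⟩ hs ⟨D', a', b', c', d'⟩ hs' heq1 heq2
    rw [hSdef, Finset.mem_filter, mem_quads] at hs hs'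
    simp only [Prod.mk.injEq] at heq1
    simp only [Sigma.mk.injEq, heq_eq_eq, Prod.mk.injEq] at heq2
    obtain ⟨-, rfl⟩ := heq1
    obtain ⟨h1, rfl, rfl, rfl⟩ := heq2
    have h3 : c ≤ d := hs.1.2.2.2.2.2.2.2.1
    have h4 : c ≤ d' := hs'.1.2.2.2.2.2.2.2.1
    have : d = d' := by omega
    rw [this]

/-- The total number of coincidences. -/
theorem card_quads_le (hg : StrictMono g) (hg0 : 0 < g 0) (hk : 1 ≤ k) (hkm : 2 * k ≤ m) :
    ((quads g m (m - k)).card : ℝ) ≤ 224 * (m ^ 3 / k) * (m.choose (m - k)) := by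
  classical
  obtain ⟨-, hk0, hm0, h2, h3⟩ := ratio_facts hk hkm
  have p0 := part0 (m := m) hg hg0 (m - k)
  have p1 := part1 hg hg0 hk hkm
  have p2 := part2 hg hg0 hk hkm
  have p3 := part3 hg hk hkm
  set Q := quads g m (m - k) with hQ
  set S0 := Q.filter (fun s => (win s.1 s.2.1 s.2.2.1).card ≤ 3)
  set S1 := Q.filter (fun s => 4 ≤ (win s.1 s.2.1 s.2.2.1).card ∧
      ¬ IsGood m k s.1 s.2.1 (win s.1 s.2.1 s.2.2.1).card)
  set S2 := Q.filter (fun s =>
      4 * (win s.1 s.2.1 s.2.2.1).card < s.2.2.2.2 - s.2.2.2.1 + 1)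
  set S3 := Q.filter (fun s => 4 ≤ (win s.1 s.2.1 s.2.2.1).card ∧
      IsGood m k s.1 s.2.1 (win s.1 s.2.1 s.2.2.1).card ∧
      s.2.2.2.2 - s.2.2.2.1 + 1 ≤ 4 * (win s.1 s.2.1 s.2.2.1).card)
  have hsub : Q ⊆ (S0 ∪ S1) ∪ (S2 ∪ S3) := by
    intro s hs
    simp only [Finset.mem_union, S0, S1, S2, S3, Finset.mem_filter]
    by_cases h1 : (win s.1 s.2.1 s.2.2.1).card ≤ 3
    · exact Or.inl (Or.inl ⟨hs, h1⟩)
    · push Not at h1
      by_cases h4 : IsGood m k s.1 s.2.1 (win s.1 s.2.1 s.2.2.1).card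
      · by_cases h5 : 4 * (win s.1 s.2.1 s.2.2.1).card < s.2.2.2.2 - s.2.2.2.1 + 1
        · exact Or.inr (Or.inl ⟨hs, h5⟩)
        · exact Or.inr (Or.inr ⟨hs, h1, h4, by omega⟩)
      · exact Or.inl (Or.inr ⟨hs, h1, h4⟩)
  have hc : Q.card ≤ (S0.card + S1.card) + (S2.card + S3.card) := by
    refine (Finset.card_le_card hsub).trans ((Finset.card_union_le _ _).trans ?_)
    exact add_le_add (Finset.card_union_le _ _) (Finset.card_union_le _ _)
  have hc' : (Q.card : ℝ) ≤ (S0.card + S1.card) + (S2.card + S3.card) := by exact_mod_cast hc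
  have hN : (0 : ℝ) ≤ (m.choose (m - k) : ℕ) := by positivity
  have hm1 : (1 : ℝ) ≤ m := by
    have : 1 ≤ m := by omega
    exact_mod_cast this
  have hkm' : (k : ℝ) ≤ m := by
    have : k ≤ m := by omega
    exact_mod_cast this
  have e1 : (m : ℝ) ≤ m ^ 3 / k := by
    rw [le_div_iff₀ hk0]
    nlinarith [mul_le_mul hkm' hm1 (by norm_num) hm0.le, sq_nonneg (m : ℝ), mul_pos hm0 hm0]
  have e2 : (m : ℝ) ^ 2 ≤ m ^ 3 / k := by
    rw [le_div_iff₀ hk0]
    nlinarith [mul_pos hm0 hm0]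
  have f1 : 16 * (m : ℝ) * (m.choose (m - k)) ≤ 16 * (m ^ 3 / k) * (m.choose (m - k)) := by
    apply mul_le_mul_of_nonneg_right _ hN
    linarith
  have f2 : 8 * (m : ℝ) ^ 2 * (m.choose (m - k)) ≤ 8 * (m ^ 3 / k) * (m.choose (m - k)) := by
    apply mul_le_mul_of_nonneg_right _ hN
    linarith
  have f3 : 16 * ((m : ℝ) ^ 3 / k) * (m.choose (m - k)) + 40 * (m ^ 3 / k) * (m.choose (m - k))
      + 8 * (m ^ 3 / k) * (m.choose (m - k)) + 160 * (m ^ 3 / k) * (m.choose (m - k))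
      = 224 * (m ^ 3 / k) * (m.choose (m - k)) := by ring
  linarith

end Pool.Agent.H44.Cvx
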