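import Pool.Agent.Lib_helper44.Cvx.Energy

/-!
# Arbitrary finite sets of gaps

helper44, for MP_f03f67_co.
-/

set_option autoImplicit false

open Finset

namespace Pool.Agent.H44.Cvx

/-- Every finite set of positive reals is an initial segment of a strictly increasing sequence. -/
lemma exists_seq (G : Finset ℝ) (hG : ∀ x ∈ G, 0 < x) :
    ∃ g : ℕ → ℝ, StrictMono g ∧ 0 < g 0 ∧ (range G.card).image g = G := by
  classical
  set M := G.card with hM
  let φ := G.orderEmbOfFin hM.symm
  have hφ : ∀ i, φ i ∈ G := fun i => Finset.orderEmbOfFin_mem G hM.symm i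
  have hle : ∀ i, φ i ≤ ∑ x ∈ G, x := fun i =>
    Finset.single_le_sum (f := fun x => x) (fun x hx => (hG x hx).le) (hφ i)
  have hS : 0 ≤ ∑ x ∈ G, x := Finset.sum_nonneg (fun x hx => (hG x hx).le)
  let g : ℕ → ℝ := fun i => if h : i < M then φ ⟨i, h⟩ else (∑ x ∈ G, x) + (i + 1)
  have g1 : ∀ i (h : i < M), g i = φ ⟨i, h⟩ := fun i h => by simp only [g]; rw [dif_pos h]
  have g2 : ∀ i, ¬ i < M → g i = (∑ x ∈ G, x) + (i + 1) := fun i h => by
    simp only [g]; rw [dif_neg h]
  refine ⟨g, strictMono_nat_of_lt_succ ?_, ?_, ?_⟩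
  · intro i
    by_cases h : i + 1 < M
    · rw [g1 i (by omega), g1 (i + 1) h]
      apply φ.strictMono
      rw [Fin.mk_lt_mk]
      omega
    · by_cases h' : i < M
      · rw [g1 i h', g2 (i + 1) h]
        have := hle ⟨i, h'⟩
        have h3 : (0 : ℝ) ≤ (i : ℝ) := by positivity
        push_cast
        linarith
      · rw [g2 i h', g2 (i + 1) h]
        push_cast
        linarith
  · by_cases h : 0 < M
    · rw [g1 0 h]
      exact hG _ (hφ _)
    · rw [g2 0 h]
      push_cast
      linarith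
  · ext x
    rw [Finset.mem_image]
    constructor
    · rintro ⟨i, hi, rfl⟩
      rw [g1 i (Finset.mem_range.1 hi)]
      exact hφ _
    · intro hx
      have : x ∈ Set.range φ := by
        rw [Finset.range_orderEmbOfFin]
        exact hx
      obtain ⟨i, rfl⟩ := this
      exact ⟨i.1, Finset.mem_range.2 i.2, by rw [g1 i.1 i.2]⟩

lemma sum_powersetCard_image {g : ℕ → ℝ} (hg : Function.Injective g) (F : Finset ℝ → ℝ)
    (U : Finset ℕ) (n : ℕ) :
    ∑ D ∈ (U.image g).powersetCard n, F D = ∑ D ∈ U.powersetCard n, F (D.image g) := by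
  classical
  symm
  apply Finset.sum_bij (fun D _ => D.image g)
  · intro D hD
    rw [mem_powersetCard] at hD ⊢
    exact ⟨Finset.image_subset_image hD.1, by rw [Finset.card_image_of_injective _ hg, hD.2]⟩
  · intro D _ D' _ h
    exact Finset.image_injective hg h
  · intro E hE
    rw [mem_powersetCard] at hE
    obtain ⟨D, hD, rfl⟩ := Finset.subset_image_iff.1 hE.1
    refine ⟨D, ?_, rfl⟩
    rw [mem_powersetCard]
    refine ⟨by exact_mod_cast hD, ?_⟩
    rw [← hE.2, Finset.card_image_of_injective _ hg]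
  · intro D _
    rfl

/-- The dense case: at most half of the gaps are deleted. -/
lemma dense_case (G : Finset ℝ) (hG : ∀ x ∈ G, 0 < x) {n : ℕ} (hn : n < G.card)
    (hn2 : G.card ≤ 2 * n) :
    ∑ D ∈ G.powersetCard n, (energy (convexSet D) : ℝ)
      ≤ 1808 * ((G.card : ℝ) ^ 3 / (G.card - n)) * (G.card.choose n) := by
  obtain ⟨g, hg, hg0, him⟩ := exists_seq G hG
  have h := sum_energy_le hg hg0 (m := G.card) (k := G.card - n) (by omega) (by omega)
  have e1 : G.card - (G.card - n) = n := by omega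
  rw [e1, Nat.cast_sub hn.le] at h
  have h2 := sum_powersetCard_image hg.injective (fun D => (energy (convexSet D) : ℝ))
    (range G.card) n
  rw [him] at h2
  rw [h2]
  exact h

/-- The sparse case: averaging over subsets. -/
lemma sparse_case (G : Finset ℝ) (hG : ∀ x ∈ G, 0 < x) {n : ℕ} (hn : 1 ≤ n)
    (hn2 : 2 * n ≤ G.card) :
    ∑ D ∈ G.powersetCard n, (energy (convexSet D) : ℝ)
      ≤ 14464 * (n : ℝ) ^ 2 * (G.card.choose n) := by
  classical
  have hn0 : (0 : ℝ) < n := by exact_mod_cast hn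
  have h1 : ∀ G' ∈ G.powersetCard (2 * n), ∑ D ∈ G'.powersetCard n, (energy (convexSet D) : ℝ)
      ≤ 14464 * (n : ℝ) ^ 2 * ((2 * n).choose n) := by
    intro G' hG'
    rw [mem_powersetCard] at hG'
    have h := dense_case G' (fun x hx => hG x (hG'.1 hx)) (n := n) (by omega) (by omega)
    rw [hG'.2] at h
    refine h.trans (le_of_eq ?_)
    push_cast
    have : (2 * (n : ℝ) - n) = n := by ring
    rw [this]
    field_simp
    ring
  have h2 : ∑ G' ∈ G.powersetCard (2 * n), ∑ D ∈ G'.powersetCard n, (energy (convexSet D) : ℝ)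
      = ∑ D ∈ G.powersetCard n, ((G.card - n).choose n : ℝ) * (energy (convexSet D) : ℝ) := by
    have e1 : ∀ G' ∈ G.powersetCard (2 * n), ∑ D ∈ G'.powersetCard n, (energy (convexSet D) : ℝ)
        = ∑ D ∈ G.powersetCard n, if D ⊆ G' then (energy (convexSet D) : ℝ) else 0 := by
      intro G' hG'
      rw [mem_powersetCard] at hG'
      rw [← Finset.sum_filter]
      apply Finset.sum_congr _ (fun _ _ => rfl)
      ext D
      rw [mem_powersetCard, Finset.mem_filter, mem_powersetCard]
      constructor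
      · rintro ⟨a1, a2⟩
        exact ⟨⟨a1.trans hG'.1, a2⟩, a1⟩
      · rintro ⟨⟨_, a2⟩, a3⟩
        exact ⟨a3, a2⟩
    rw [Finset.sum_congr rfl e1, Finset.sum_comm]
    apply Finset.sum_congr rfl
    intro D hD
    rw [mem_powersetCard] at hD
    rw [← Finset.sum_filter, Finset.sum_const, nsmul_eq_mul,
      Finset.card_filter_powersetCard_subset _ _ _ hD.1 (by omega), hD.2]
    have : 2 * n - n = n := by omega
    rw [this]
  have h3 : ∑ G' ∈ G.powersetCard (2 * n), ∑ D ∈ G'.powersetCard n, (energy (convexSet D) : ℝ)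
      ≤ (G.card.choose (2 * n)) * (14464 * (n : ℝ) ^ 2 * ((2 * n).choose n)) := by
    refine (Finset.sum_le_sum h1).trans ?_
    rw [Finset.sum_const, nsmul_eq_mul, card_powersetCard]
  rw [h2, ← Finset.mul_sum] at h3
  have h4 : ((G.card.choose (2 * n) : ℕ) : ℝ) * ((2 * n).choose n : ℕ)
      = (G.card.choose n : ℕ) * ((G.card - n).choose n : ℕ) := by
    have := Nat.choose_mul (n := G.card) (k := 2 * n) (s := n) (by omega)
    have e : 2 * n - n = n := by omega
    rw [e] at this
    exact_mod_cast this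
  have h5 : (0 : ℝ) < ((G.card - n).choose n : ℕ) := by
    have : 0 < (G.card - n).choose n := Nat.choose_pos (by omega)
    exact_mod_cast this
  have h6 : ((G.card - n).choose n : ℝ) * ∑ D ∈ G.powersetCard n, (energy (convexSet D) : ℝ)
      ≤ ((G.card - n).choose n : ℝ) * (14464 * (n : ℝ) ^ 2 * (G.card.choose n)) := by
    refine h3.trans (le_of_eq ?_)
    calc (G.card.choose (2 * n) : ℝ) * (14464 * (n : ℝ) ^ 2 * ((2 * n).choose n))
        = 14464 * (n : ℝ) ^ 2 * ((G.card.choose (2 * n) : ℝ) * ((2 * n).choose n)) := by ring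
      _ = 14464 * (n : ℝ) ^ 2 * ((G.card.choose n : ℝ) * ((G.card - n).choose n)) := by rw [h4]
      _ = _ := by ring
  exact le_of_mul_le_mul_left h6 h5

/-- The average energy of the convex sets with `n` gaps from `G`. -/
theorem average_bound (G : Finset ℝ) (hG : ∀ x ∈ G, 0 < x) {n : ℕ} (hn : 1 ≤ n)
    (hnG : n < G.card) :
    ∑ D ∈ G.powersetCard n, (energy (convexSet D) : ℝ)
      ≤ 14464 * (n : ℝ) ^ 2 * (G.card / (G.card - n)) * (G.card.choose n) := by
  have hn0 : (0 : ℝ) < n := by exact_mod_cast hn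
  have hM : (n : ℝ) < G.card := by exact_mod_cast hnG
  have hk : (0 : ℝ) < G.card - n := by linarith
  have hM0 : (0 : ℝ) < G.card := by linarith
  have hN : (0 : ℝ) ≤ (G.card.choose n : ℕ) := by positivity
  rcases Nat.le_total (2 * n) G.card with h | h
  · refine (sparse_case G hG hn h).trans ?_
    apply mul_le_mul_of_nonneg_right _ hN
    have : (1 : ℝ) ≤ G.card / (G.card - n) := by
      rw [le_div_iff₀ hk]
      linarith
    have h2 : (0 : ℝ) ≤ 14464 * (n : ℝ) ^ 2 := by positivity
    nlinarith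
  · refine (dense_case G hG hnG h).trans ?_
    apply mul_le_mul_of_nonneg_right _ hN
    have h3 : (G.card : ℝ) ≤ 2 * n := by exact_mod_cast h
    have e1 : (G.card : ℝ) ^ 3 / (G.card - n) = (G.card : ℝ) ^ 2 * (G.card / (G.card - n)) := by
      field_simp
    rw [e1]
    have h4 : (G.card : ℝ) ^ 2 ≤ 4 * n ^ 2 := by nlinarith
    have h5 : (0 : ℝ) ≤ G.card / (G.card - n) := by positivity
    have h6 : (G.card : ℝ) ^ 2 * (G.card / (G.card - n)) ≤ 4 * n ^ 2 * (G.card / (G.card - n)) :=
      mul_le_mul_of_nonneg_right h4 h5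
    have h7 : (0 : ℝ) ≤ (n : ℝ) ^ 2 * (G.card / (G.card - n)) := by positivity
    nlinarith

end Pool.Agent.H44.Cvx
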