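import Mathlib

/-!
# Window sums of an increasing sequence

helper44, for MP_f03f67_co.
-/

set_option autoImplicit false

open Finset

namespace Pool.Agent.H44.Cvx

/-- The window of `D` from `a` to `b`. -/
def win (D : Finset ℕ) (a b : ℕ) : Finset ℕ := D ∩ Icc a b

/-- The sum of `g` over the window. -/
noncomputable def ws (g : ℕ → ℝ) (D : Finset ℕ) (a b : ℕ) : ℝ := ∑ i ∈ win D a b, g i

lemma mem_win {D : Finset ℕ} {a b i : ℕ} : i ∈ win D a b ↔ i ∈ D ∧ a ≤ i ∧ i ≤ b := by
  simp [win, Finset.mem_inter, Finset.mem_Icc]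

/-- Shifting a window to the right increases the sum. -/
lemma shift {g : ℕ → ℝ} (hg : Monotone g) {D : Finset ℕ} {a b a' b' : ℕ} (ha : a ∈ D)
    (hb' : b' ∈ D) (hab : a ≤ b) (hab' : a' ≤ b') (haa : a < a')
    (hc : (win D a b).card = (win D a' b').card) :
    b < b' ∧ g b' - g a ≤ ws g D a' b' - ws g D a b := by
  have hbb : b < b' := by
    by_contra h
    push Not at h
    have h1 : win D a' b' ⊂ win D a b := by
      rw [Finset.ssubset_iff_of_subset]
      · refine ⟨a, mem_win.2 ⟨ha, le_refl _, hab⟩, ?_⟩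
        intro h2
        have := (mem_win.1 h2).2.1
        omega
      · intro i hi
        rw [mem_win] at hi ⊢
        exact ⟨hi.1, by omega, by omega⟩
    have := Finset.card_lt_card h1
    omega
  refine ⟨hbb, ?_⟩
  set X := win D a b with hX
  set Y := win D a' b' with hY
  have hsum : ws g D a' b' - ws g D a b = ∑ i ∈ Y \ X, g i - ∑ i ∈ X \ Y, g i := by
    rw [Finset.sum_sdiff_sub_sum_sdiff]
    rfl
  have hcard : (X \ Y).card = (Y \ X).card := Finset.card_sdiff_comm hc
  set θ := max a' (b + 1) with hθ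
  have haX : a ∈ X \ Y := by
    rw [Finset.mem_sdiff]
    refine ⟨mem_win.2 ⟨ha, le_refl _, hab⟩, ?_⟩
    intro h2
    have := (mem_win.1 h2).2.1
    omega
  have hbY : b' ∈ Y \ X := by
    rw [Finset.mem_sdiff]
    refine ⟨mem_win.2 ⟨hb', hab', le_refl _⟩, ?_⟩
    intro h2
    have := (mem_win.1 h2).2.2
    omega
  have hXlt : ∀ i ∈ X \ Y, i < θ := by
    intro i hi
    rw [Finset.mem_sdiff] at hi
    have h1 := mem_win.1 hi.1
    by_contra h
    push Not at h
    apply hi.2
    refine mem_win.2 ⟨h1.1, ?_, ?_⟩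
    · exact le_trans (le_max_left _ _) h
    · omega
  have hYge : ∀ i ∈ Y \ X, θ ≤ i := by
    intro i hi
    rw [Finset.mem_sdiff] at hi
    have h1 := mem_win.1 hi.1
    by_contra h
    push Not at h
    apply hi.2
    refine mem_win.2 ⟨h1.1, by omega, ?_⟩
    rcases lt_max_iff.1 h with h3 | h3
    · omega
    · omega
  have h1 : ∑ i ∈ X \ Y, g i ≤ g a + ((X \ Y).card - 1) * g θ := by
    rw [← Finset.add_sum_erase _ _ haX]
    have : ∑ i ∈ (X \ Y).erase a, g i ≤ ∑ i ∈ (X \ Y).erase a, g θ := by
      apply Finset.sum_le_sum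
      intro i hi
      exact hg (hXlt i (Finset.mem_of_mem_erase hi)).le
    rw [Finset.sum_const, nsmul_eq_mul, Finset.card_erase_of_mem haX,
      Nat.cast_sub (Finset.card_pos.2 ⟨a, haX⟩), Nat.cast_one] at this
    linarith
  have h2 : g b' + ((Y \ X).card - 1) * g θ ≤ ∑ i ∈ Y \ X, g i := by
    rw [← Finset.add_sum_erase _ _ hbY]
    have : ∑ i ∈ (Y \ X).erase b', g θ ≤ ∑ i ∈ (Y \ X).erase b', g i := by
      apply Finset.sum_le_sum
      intro i hi
      exact hg (hYge i (Finset.mem_of_mem_erase hi))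
    rw [Finset.sum_const, nsmul_eq_mul, Finset.card_erase_of_mem hbY,
      Nat.cast_sub (Finset.card_pos.2 ⟨b', hbY⟩), Nat.cast_one] at this
    linarith
  rw [hsum]
  rw [hcard] at h1
  linarith

/-- Windows with the same number of elements and the same sum are equal. -/
lemma window_unique {g : ℕ → ℝ} (hg : StrictMono g) {D : Finset ℕ} {a b a' b' : ℕ} (ha : a ∈ D)
    (hb : b ∈ D) (ha' : a' ∈ D) (hb' : b' ∈ D) (hab : a ≤ b) (hab' : a' ≤ b')
    (hc : (win D a b).card = (win D a' b').card) (hs : ws g D a b = ws g D a' b') :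
    a = a' := by
  rcases lt_trichotomy a a' with h | h | h
  · obtain ⟨h1, h2⟩ := shift hg.monotone ha hb' hab hab' h hc
    have : g a < g b' := hg (by omega)
    linarith
  · exact h
  · obtain ⟨h1, h2⟩ := shift hg.monotone ha' hb hab' hab h hc.symm
    have : g a' < g b := hg (by omega)
    linarith

/-- The right end of a window is determined by its left end and its size. -/
lemma right_unique {D : Finset ℕ} {a b b' : ℕ} (hb : b ∈ D) (hb' : b' ∈ D) (hab : a ≤ b)
    (hab' : a ≤ b') (hc : (win D a b).card = (win D a b').card) : b = b' := by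
  have key : ∀ {b b' : ℕ}, b ∈ D → b' ∈ D → a ≤ b → a ≤ b' →
      (win D a b).card = (win D a b').card → ¬ b < b' := by
    intro b b' _ hb' _ hab' hc h
    have h1 : win D a b ⊂ win D a b' := by
      rw [Finset.ssubset_iff_of_subset]
      · refine ⟨b', mem_win.2 ⟨hb', hab', le_refl _⟩, ?_⟩
        intro h2
        have := (mem_win.1 h2).2.2
        omega
      · intro i hi
        rw [mem_win] at hi ⊢
        exact ⟨hi.1, by omega, by omega⟩
    have := Finset.card_lt_card h1
    omega
  rcases lt_trichotomy b b' with h | h | h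
  · exact absurd h (key hb hb' hab hab' hc)
  · exact h
  · exact absurd h (key hb' hb hab' hab hc.symm)

/-- A window further right with the same sum has fewer elements. -/
lemma card_lt_of_eq {g : ℕ → ℝ} (hg : StrictMono g) (hg0 : 0 < g 0) {D : Finset ℕ} {a b c d : ℕ}
    (ha : a ∈ D) (hab : a ≤ b) (hbc : b < c)
    (hs : ws g D a b = ws g D c d) : (win D c d).card < (win D a b).card := by
  by_contra h
  push Not at h
  have hpos : 0 < (win D a b).card := Finset.card_pos.2 ⟨a, mem_win.2 ⟨ha, le_refl _, hab⟩⟩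
  have h1 : ws g D a b ≤ (win D a b).card * g b := by
    unfold ws
    rw [← nsmul_eq_mul, ← Finset.sum_const]
    apply Finset.sum_le_sum
    intro i hi
    exact hg.monotone (mem_win.1 hi).2.2
  have h2 : (win D c d).card * g c ≤ ws g D c d := by
    unfold ws
    rw [← nsmul_eq_mul, ← Finset.sum_const]
    apply Finset.sum_le_sum
    intro i hi
    exact hg.monotone (mem_win.1 hi).2.1
  have h3 : g b < g c := hg hbc
  have h4 : (0 : ℝ) < (win D a b).card := by exact_mod_cast hpos
  have h5 : ((win D a b).card : ℝ) ≤ (win D c d).card := by exact_mod_cast h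
  have h6 : 0 < g c := lt_of_lt_of_le hg0 (hg.monotone (Nat.zero_le _))
  nlinarith

/-- A window with `r` elements reaches at least `r - 1` steps to the right. -/
lemma card_win_le {D : Finset ℕ} {a b : ℕ} (hab : a ≤ b) : (win D a b).card ≤ b - a + 1 := by
  refine le_trans (Finset.card_le_card (Finset.inter_subset_right)) ?_
  rw [Nat.card_Icc]
  omega

end Pool.Agent.H44.Cvx
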